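import Pool.Agent.JW.Cyc

/-!
# Cutting the cycles of a permutation into blocks of 3 and at most one block of 4
-/

set_option autoImplicit false

namespace Pool.Agent.JW

open Function

/-- blocks of three consecutive elements and at most one block of four elements on every cycle -/
structure Blk {Y : Type*} (σ : Equiv.Perm Y) where
  big : Y → Bool
  o : Y → ℕ
  b : Y → Y
  rep : Y → Y
  sz : Y → ℕ
  sz_def : ∀ y, sz y = if big y = true then 4 else 3
  o_lt : ∀ y, o y < sz y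
  rep_s : ∀ y, rep (σ y) = rep y
  step_big : ∀ y, o y + 1 < sz y → big (σ y) = big y
  step_o : ∀ y, o y + 1 < sz y → o (σ y) = o y + 1
  step_b : ∀ y, o y + 1 < sz y → b (σ y) = b y
  last_o : ∀ y, o y + 1 = sz y → o (σ y) = 0
  last_b : ∀ y, o y + 1 = sz y → b (σ y) = σ y
  it : ∀ y, (σ^[o y]) (b y) = y
  o_b : ∀ y, o (b y) = 0
  b_b : ∀ y, b (b y) = b y
  big_b : ∀ y, big (b y) = big y
  rep_b : ∀ y, rep (b y) = rep y
  uniq : ∀ y z, rep y = rep z → big y = true → big z = true → b y = b z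

theorem exists_blk {Y : Type*} [Finite Y] (σ : Equiv.Perm Y)
    (h3 : ∀ y (n : ℕ), 0 < n → (σ^[n]) y = y → 3 ≤ n)
    (hm : ∀ y (n : ℕ), 0 < n → (σ^[n]) y = y → (∀ m, 0 < m → (σ^[m]) y = y → n ≤ m) → n % 3 ≠ 2) :
    Nonempty (Blk σ) := by
  classical
  obtain ⟨C⟩ := cyc_index σ
  have hlen3 : ∀ y, 3 ≤ C.len y := fun y =>
    h3 y _ (lt_of_le_of_lt (Nat.zero_le _) (C.idx_lt y)) (C.len_it y)
  have hlenm : ∀ y, C.len y % 3 ≠ 2 := fun y =>
    hm y _ (lt_of_le_of_lt (Nat.zero_le _) (C.idx_lt y)) (C.len_it y)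
      (fun m h1 h2 => C.len_le y m h1 h2)
  let big : Y → Bool := fun y => decide (C.len y % 3 = 1 ∧ C.len y ≤ C.idx y + 4)
  let o : Y → ℕ := fun y => if big y = true then C.idx y + 4 - C.len y else C.idx y % 3
  let b : Y → Y := fun y => (σ^[C.idx y - o y]) (C.rep y)
  let sz : Y → ℕ := fun y => if big y = true then 4 else 3
  have hbig : ∀ y, big y = true ↔ (C.len y % 3 = 1 ∧ C.len y ≤ C.idx y + 4) := by
    intro y
    simp only [big, decide_eq_true_eq]
  have hbigf : ∀ y, big y = false ↔ ¬ (C.len y % 3 = 1 ∧ C.len y ≤ C.idx y + 4) := by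
    intro y
    simp only [big, decide_eq_false_iff_not]
  -- the two cases
  have hcase : ∀ y, (big y = true ∧ C.len y % 3 = 1 ∧ C.len y ≤ C.idx y + 4 ∧
      o y = C.idx y + 4 - C.len y ∧ sz y = 4) ∨
      (big y = false ∧ ¬ (C.len y % 3 = 1 ∧ C.len y ≤ C.idx y + 4) ∧ o y = C.idx y % 3 ∧
        sz y = 3) := by
    intro y
    cases h : big y with
    | true =>
      left
      have h1 := (hbig y).1 h
      refine ⟨rfl, h1.1, h1.2, ?_, ?_⟩
      · simp only [o, h, if_true]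
      · simp only [sz, h, if_true]
    | false =>
      right
      have h1 := (hbigf y).1 h
      refine ⟨rfl, h1, ?_, ?_⟩
      · simp [o, h]
      · simp [sz, h]
  have hole : ∀ y, o y ≤ C.idx y := by
    intro y
    have h1 := hlen3 y
    have h2 := C.idx_lt y
    rcases hcase y with ⟨-, h3, h4, h5, -⟩ | ⟨-, -, h5, -⟩
    · omega
    · rw [h5]
      exact Nat.mod_le _ _
  have hidxb : ∀ y, C.idx (b y) = C.idx y - o y := by
    intro y
    exact C.idx_it' y _ (lt_of_le_of_lt (Nat.sub_le _ _) (C.idx_lt y))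
  have hlenb : ∀ y, C.len (b y) = C.len y := fun y => C.len_it' y _
  have hrepb : ∀ y, C.rep (b y) = C.rep y := fun y => C.rep_it' y _
  have hbigb : ∀ y, big (b y) = big y := by
    intro y
    have h1 := hlen3 y
    have h2 := C.idx_lt y
    rcases hcase y with ⟨h0, h3, h4, h5, -⟩ | ⟨h0, h3, h5, -⟩
    · rw [h0, hbig, hlenb, hidxb]
      omega
    · rw [h0, hbigf, hlenb, hidxb]
      omega
  have hob : ∀ y, o (b y) = 0 := by
    intro y
    have h1 := hlen3 y
    have h2 := C.idx_lt y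
    have h6 := hbigb y
    rcases hcase y with ⟨h0, h3, h4, h5, -⟩ | ⟨h0, h3, h5, -⟩
    · rw [h0] at h6
      simp only [o, h6, if_true, hlenb]
      rw [hidxb]
      omega
    · rw [h0] at h6
      have h7 : o (b y) = C.idx (b y) % 3 := by simp [o, h6]
      rw [h7, hidxb]
      omega
  refine ⟨⟨big, o, b, C.rep, sz, fun y => rfl, ?_, C.rep_s, ?_, ?_, ?_, ?_, ?_, ?_, hob, ?_,
    hbigb, hrepb, ?_⟩⟩
  · -- o_lt
    intro y
    have h2 := C.idx_lt y
    rcases hcase y with ⟨-, h3, h4, h5, h6⟩ | ⟨-, -, h5, h6⟩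
    · rw [h6]; omega
    · rw [h6]; omega
  · -- step_big
    intro y hy
    have h2 := C.idx_lt y
    have h7 : (C.idx y + 1 < C.len y ∧ C.idx (σ y) = C.idx y + 1) ∨
        (C.len y ≤ C.idx y + 1 ∧ C.idx (σ y) = 0) := by
      have h70 := C.idx_s y
      split_ifs at h70 with h71
      · exact Or.inl ⟨h71, h70⟩
      · exact Or.inr ⟨not_lt.1 h71, h70⟩
    have h8 := C.len_s y
    have h1 := hlen3 y
    rcases hcase y with ⟨h0, h3, h4, h5, h6⟩ | ⟨h0, h3, h5, h6⟩
    · rw [h0, hbig, h8]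
      omega
    · rw [h0, hbigf, h8]
      omega
  · -- step_o
    intro y hy
    have h2 := C.idx_lt y
    have h7 : (C.idx y + 1 < C.len y ∧ C.idx (σ y) = C.idx y + 1) ∨
        (C.len y ≤ C.idx y + 1 ∧ C.idx (σ y) = 0) := by
      have h70 := C.idx_s y
      split_ifs at h70 with h71
      · exact Or.inl ⟨h71, h70⟩
      · exact Or.inr ⟨not_lt.1 h71, h70⟩
    have h8 := C.len_s y
    have h1 := hlen3 y
    have h9 := hlenm y
    rcases hcase y with ⟨h0, h3, h4, h5, h6⟩ | ⟨h0, h3, h5, h6⟩ <;>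
      rcases hcase (σ y) with ⟨g0, g3, g4, g5, g6⟩ | ⟨g0, g3, g5, g6⟩ <;> omega
  · -- step_b
    intro y hy
    have h2 := C.idx_lt y
    have h7 : (C.idx y + 1 < C.len y ∧ C.idx (σ y) = C.idx y + 1) ∨
        (C.len y ≤ C.idx y + 1 ∧ C.idx (σ y) = 0) := by
      have h70 := C.idx_s y
      split_ifs at h70 with h71
      · exact Or.inl ⟨h71, h70⟩
      · exact Or.inr ⟨not_lt.1 h71, h70⟩
    have h8 := C.len_s y
    have h1 := hlen3 y
    have h9 := hlenm y
    have h10 : o (σ y) = o y + 1 := by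
      rcases hcase y with ⟨h0, h3, h4, h5, h6⟩ | ⟨h0, h3, h5, h6⟩ <;>
        rcases hcase (σ y) with ⟨g0, g3, g4, g5, g6⟩ | ⟨g0, g3, g5, g6⟩ <;> omega
    have h11 : C.idx (σ y) = C.idx y + 1 := by
      have h13 := hole (σ y)
      omega
    show (σ^[C.idx (σ y) - o (σ y)]) (C.rep (σ y)) = (σ^[C.idx y - o y]) (C.rep y)
    rw [C.rep_s, h11, h10]
    congr 1
    omega
  · -- last_o
    intro y hy
    have h2 := C.idx_lt y
    have h7 : (C.idx y + 1 < C.len y ∧ C.idx (σ y) = C.idx y + 1) ∨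
        (C.len y ≤ C.idx y + 1 ∧ C.idx (σ y) = 0) := by
      have h70 := C.idx_s y
      split_ifs at h70 with h71
      · exact Or.inl ⟨h71, h70⟩
      · exact Or.inr ⟨not_lt.1 h71, h70⟩
    have h8 := C.len_s y
    have h1 := hlen3 y
    have h9 := hlenm y
    rcases hcase y with ⟨h0, h3, h4, h5, h6⟩ | ⟨h0, h3, h5, h6⟩ <;>
      rcases hcase (σ y) with ⟨g0, g3, g4, g5, g6⟩ | ⟨g0, g3, g5, g6⟩ <;> omega
  · -- last_b
    intro y hy
    have h2 := C.idx_lt y
    have h7 : (C.idx y + 1 < C.len y ∧ C.idx (σ y) = C.idx y + 1) ∨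
        (C.len y ≤ C.idx y + 1 ∧ C.idx (σ y) = 0) := by
      have h70 := C.idx_s y
      split_ifs at h70 with h71
      · exact Or.inl ⟨h71, h70⟩
      · exact Or.inr ⟨not_lt.1 h71, h70⟩
    have h8 := C.len_s y
    have h1 := hlen3 y
    have h9 := hlenm y
    have h10 : o (σ y) = 0 := by
      rcases hcase y with ⟨h0, h3, h4, h5, h6⟩ | ⟨h0, h3, h5, h6⟩ <;>
        rcases hcase (σ y) with ⟨g0, g3, g4, g5, g6⟩ | ⟨g0, g3, g5, g6⟩ <;> omega
    show (σ^[C.idx (σ y) - o (σ y)]) (C.rep (σ y)) = σ y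
    rw [h10, Nat.sub_zero]
    exact C.it (σ y)
  · -- it
    intro y
    show (σ^[o y]) ((σ^[C.idx y - o y]) (C.rep y)) = y
    rw [← iterate_add_apply, Nat.add_sub_cancel' (hole y)]
    exact C.it y
  · -- b_b
    intro y
    show (σ^[C.idx (b y) - o (b y)]) (C.rep (b y)) = (σ^[C.idx y - o y]) (C.rep y)
    rw [hob, hidxb, hrepb, Nat.sub_zero]
  · -- uniq
    intro y z hr hy hz
    have hl : C.len y = C.len z := by
      have e1 := C.len_it' y 0
      have e2 := C.len_it' z 0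
      have e3 : (σ^[0]) (C.rep y) = (σ^[0]) (C.rep z) := by rw [hr]
      rw [← e1, ← e2, e3]
    have h1 := hlen3 y
    have h2 := C.idx_lt y
    have h2' := C.idx_lt z
    rcases hcase y with ⟨h0, h3, h4, h5, -⟩ | ⟨h0, h3, h5, -⟩
    · rcases hcase z with ⟨g0, g3, g4, g5, -⟩ | ⟨g0, g3, g5, -⟩
      · show (σ^[C.idx y - o y]) (C.rep y) = (σ^[C.idx z - o z]) (C.rep z)
        rw [hr]
        congr 1
        omega
      · rw [g0] at hz
        exact absurd hz (by simp)
    · rw [h0] at hy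
      exact absurd hy (by simp)

end Pool.Agent.JW
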