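import Mathlib

/-!
# A certificate for small monochromatic components
-/

set_option autoImplicit false

namespace Pool.Agent.JW

variable {V : Type*}

/-- the subgraph of colour `b` -/
abbrev mono (G : SimpleGraph V) (c : Sym2 V → Bool) (b : Bool) : SimpleGraph V :=
  SimpleGraph.fromEdgeSet {e : Sym2 V | e ∈ G.edgeSet ∧ c e = b}

/-- the edges of the component of `v` in colour `b` -/
abbrev compE (G : SimpleGraph V) (c : Sym2 V → Bool) (b : Bool) (v : V) : Set (Sym2 V) :=
  {e : Sym2 V | e ∈ (mono G c b).edgeSet ∧ ∀ w ∈ e, (mono G c b).Reachable v w}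

theorem mono_adj {G : SimpleGraph V} {c : Sym2 V → Bool} {b : Bool} {x y : V} :
    (mono G c b).Adj x y ↔ G.Adj x y ∧ c s(x, y) = b := by
  rw [SimpleGraph.fromEdgeSet_adj]
  constructor
  · rintro ⟨⟨h1, h2⟩, -⟩
    exact ⟨h1, h2⟩
  · rintro ⟨h1, h2⟩
    exact ⟨⟨h1, h2⟩, h1.ne⟩

theorem mem_mono_edgeSet {G : SimpleGraph V} {c : Sym2 V → Bool} {b : Bool} {e : Sym2 V} :
    e ∈ (mono G c b).edgeSet ↔ e ∈ G.edgeSet ∧ c e = b := by
  induction e with
  | _ x y => exact mono_adj

/-- **Certificate.** The edges have labels, edges of the same colour with a common vertex have the same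
label, and every class of edges of the same colour and label has at most `n` edges. -/
theorem cert {α : Type*} {G : SimpleGraph V} {c : Sym2 V → Bool} {lab : Sym2 V → α} {n : ℕ}
    (h : ∀ x y z, G.Adj x y → G.Adj x z → c s(x, y) = c s(x, z) → lab s(x, y) = lab s(x, z))
    (hn : ∀ (b : Bool) (a : α),
      ∃ S : Set (Sym2 V), S.Finite ∧ S.ncard ≤ n ∧ ∀ e ∈ G.edgeSet, c e = b → lab e = a → e ∈ S)
    (b : Bool) (v : V) : (compE G c b v).ncard ≤ n := by
  rcases Set.eq_empty_or_nonempty (compE G c b v) with h0 | ⟨e0, he0⟩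
  · rw [h0]
    simp
  -- an edge of colour `b` at a vertex and its label
  have key : ∀ x y : V, (mono G c b).Reachable x y → ∀ x' y', (mono G c b).Adj x x' →
      (mono G c b).Adj y y' → lab s(x, x') = lab s(y, y') := by
    intro x y hxy
    obtain ⟨w⟩ := hxy
    induction w with
    | nil =>
      intro x' y' hx hy
      rw [mono_adj] at hx hy
      exact h _ _ _ hx.1 hy.1 (hx.2.trans hy.2.symm)
    | cons hadj w ih =>
      intro x' y' hx hy
      have h1 := ih _ _ hadj.symm hy
      rw [mono_adj] at hadj hx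
      have h2 := h _ _ _ hx.1 hadj.1 (hx.2.trans hadj.2.symm)
      rw [h2, ← h1, Sym2.eq_swap]
  obtain ⟨S, hfin, hcard, hS⟩ := hn b (lab e0)
  refine (Set.ncard_le_ncard (fun e he => ?_) hfin).trans hcard
  obtain ⟨he1, he2⟩ := he
  obtain ⟨h01, h02⟩ := he0
  have he3 := mem_mono_edgeSet.1 he1
  refine hS e he3.1 he3.2 ?_
  induction e with
  | _ x x' =>
  induction e0 with
  | _ y y' =>
  have hx := he2 x (Sym2.mem_mk_left x x')
  have hy := h02 y (Sym2.mem_mk_left y y')
  exact key x y (hx.symm.trans hy) x' y' he1 h01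

/-- the certificate, finite form: classes are finite sets -/
theorem cert' {α : Type*} [Finite V] {G : SimpleGraph V} {c : Sym2 V → Bool} {lab : Sym2 V → α}
    {n : ℕ}
    (h : ∀ x y z, G.Adj x y → G.Adj x z → c s(x, y) = c s(x, z) → lab s(x, y) = lab s(x, z))
    (hn : ∀ (b : Bool) (a : α), {e : Sym2 V | e ∈ G.edgeSet ∧ c e = b ∧ lab e = a}.ncard ≤ n)
    (b : Bool) (v : V) : (compE G c b v).ncard ≤ n :=
  cert h (fun b a => ⟨_, Set.toFinite _, hn b a, fun _ he h1 h2 => ⟨he, h1, h2⟩⟩) b v

/-- labels from lists: `pc b a` is a list of at most `n` edges which contains all edges of colour `b`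
and label `a` -/
theorem cert_list {α : Type*} {G : SimpleGraph V} {c : Sym2 V → Bool} {lab : Sym2 V → α} {n : ℕ}
    (h : ∀ x y z, G.Adj x y → G.Adj x z → c s(x, y) = c s(x, z) → lab s(x, y) = lab s(x, z))
    (pc : Bool → α → List (Sym2 V)) (hlen : ∀ b a, (pc b a).length ≤ n)
    (hpc : ∀ e ∈ G.edgeSet, e ∈ pc (c e) (lab e))
    (b : Bool) (v : V) : (compE G c b v).ncard ≤ n := by
  classical
  refine cert h (fun b a => ⟨{e | e ∈ pc b a}, List.finite_toSet _, ?_, fun e he h1 h2 => ?_⟩) b v
  · have h1 : {e | e ∈ pc b a} = ((pc b a).toFinset : Set (Sym2 V)) := by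
      ext e
      simp
    rw [h1, Set.ncard_coe_finset]
    exact (List.toFinset_card_le _).trans (hlen b a)
  · have h3 := hpc e he
    rw [h1, h2] at h3
    exact h3

/-- two label functions, one for every colour -/
theorem cert2 {α β : Type*} {G : SimpleGraph V} {c : Sym2 V → Bool} {labR : Sym2 V → α}
    {labB : Sym2 V → β} {n : ℕ}
    (hR : ∀ x y z, G.Adj x y → G.Adj x z → c s(x, y) = true → c s(x, z) = true →
      labR s(x, y) = labR s(x, z))
    (hB : ∀ x y z, G.Adj x y → G.Adj x z → c s(x, y) = false → c s(x, z) = false →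
      labB s(x, y) = labB s(x, z))
    (nR : ∀ a : α, ∃ S : Set (Sym2 V), S.Finite ∧ S.ncard ≤ n ∧
      ∀ e ∈ G.edgeSet, c e = true → labR e = a → e ∈ S)
    (nB : ∀ a : β, ∃ S : Set (Sym2 V), S.Finite ∧ S.ncard ≤ n ∧
      ∀ e ∈ G.edgeSet, c e = false → labB e = a → e ∈ S)
    (b : Bool) (v : V) : (compE G c b v).ncard ≤ n := by
  refine cert (lab := fun e => if c e = true then (Sum.inl (labR e) : α ⊕ β) else Sum.inr (labB e))
    (fun x y z hy hz h => ?_) (fun b a => ?_) b v
  · cases hc : c s(x, y) with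
    | true =>
      have hc' : c s(x, z) = true := h.symm.trans hc
      simp only [hc', if_true]
      rw [hR x y z hy hz hc hc']
    | false =>
      have hc' : c s(x, z) = false := h.symm.trans hc
      simp only [hc', Bool.false_eq_true, if_false]
      rw [hB x y z hy hz hc hc']
  · cases b with
    | true =>
      cases a with
      | inl a =>
        obtain ⟨S, h1, h2, h3⟩ := nR a
        refine ⟨S, h1, h2, fun e he hc hl => h3 e he hc ?_⟩
        simp only [hc, if_true, Sum.inl.injEq] at hl
        exact hl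
      | inr a =>
        refine ⟨∅, Set.finite_empty, by simp, fun e he hc hl => ?_⟩
        simp [hc] at hl
    | false =>
      cases a with
      | inl a =>
        refine ⟨∅, Set.finite_empty, by simp, fun e he hc hl => ?_⟩
        simp [hc] at hl
      | inr a =>
        obtain ⟨S, h1, h2, h3⟩ := nB a
        refine ⟨S, h1, h2, fun e he hc hl => h3 e he hc ?_⟩
        simp only [hc, Bool.false_eq_true, if_false, Sum.inr.injEq] at hl
        exact hl

/-- two label functions, lists of edges -/
theorem cert2_list {α β : Type*} {G : SimpleGraph V} {c : Sym2 V → Bool} {labR : Sym2 V → α}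
    {labB : Sym2 V → β} {n : ℕ}
    (hR : ∀ x y z, G.Adj x y → G.Adj x z → c s(x, y) = true → c s(x, z) = true →
      labR s(x, y) = labR s(x, z))
    (hB : ∀ x y z, G.Adj x y → G.Adj x z → c s(x, y) = false → c s(x, z) = false →
      labB s(x, y) = labB s(x, z))
    (pR : α → List (Sym2 V)) (pB : β → List (Sym2 V)) (lR : ∀ a, (pR a).length ≤ n)
    (lB : ∀ a, (pB a).length ≤ n)
    (hpR : ∀ e ∈ G.edgeSet, c e = true → e ∈ pR (labR e))
    (hpB : ∀ e ∈ G.edgeSet, c e = false → e ∈ pB (labB e))
    (b : Bool) (v : V) : (compE G c b v).ncard ≤ n := by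
  classical
  have aux : ∀ l : List (Sym2 V), l.length ≤ n → ({e | e ∈ l} : Set (Sym2 V)).ncard ≤ n := by
    intro l hl
    have h1 : {e | e ∈ l} = (l.toFinset : Set (Sym2 V)) := by
      ext e
      simp
    rw [h1, Set.ncard_coe_finset]
    exact (List.toFinset_card_le _).trans hl
  refine cert2 hR hB (fun a => ⟨{e | e ∈ pR a}, List.finite_toSet _, aux _ (lR a),
    fun e he hc hl => ?_⟩) (fun a => ⟨{e | e ∈ pB a}, List.finite_toSet _, aux _ (lB a),
    fun e he hc hl => ?_⟩) b v
  · have := hpR e he hc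
    rwa [hl] at this
  · have := hpB e he hc
    rwa [hl] at this

end Pool.Agent.JW
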