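import Pool.Agent.JW.Cert

/-!
# The cut problem

`X` is a set of centres with pairwise disjoint closed neighbourhoods, every `x ∈ X` has exactly one
neighbour in `R` (its spoke is red, the two other spokes are blue). The remaining edges (`H`-edges, no
end in `X`) are blue if they are in `Eb` and red otherwise.
-/

set_option autoImplicit false

namespace Pool.Agent.JW

variable {V : Type*}

/-- the blue vertices of the stars -/
def BB (G : SimpleGraph V) (X R : Set V) (y : V) : Prop := y ∉ R ∧ ∃ x ∈ X, G.Adj x y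

/-- the data and the conditions of the cut problem -/
structure CutSol (G : SimpleGraph V) (X R : Set V) (Eb : Set (Sym2 V)) {α β : Type*}
    (labR : V → α) (labB : V → β) : Prop where
  ind : ∀ x ∈ X, ∀ x' ∈ X, ¬ G.Adj x x'
  one : ∀ v, ∀ x ∈ X, ∀ x' ∈ X, G.Adj x v → G.Adj x' v → x = x'
  exR : ∀ x ∈ X, ∃ y, G.Adj x y ∧ y ∈ R
  unR : ∀ x ∈ X, ∀ y z, G.Adj x y → y ∈ R → G.Adj x z → z ∈ R → y = z
  /-- a blue edge with a blue star vertex `y` has its other end `z` not blue, and meets no other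
  blue `H`-edge -/
  b1 : ∀ y z, G.Adj y z → y ∉ X → z ∉ X → s(y, z) ∈ Eb → BB G X R y →
    ¬ BB G X R z ∧ (∀ w, G.Adj y w → w ∉ X → s(y, w) ∈ Eb → w = z) ∧
      (∀ w, G.Adj z w → w ∉ X → s(z, w) ∈ Eb → w = y)
  /-- red `H`-edges -/
  r : ∀ y z, G.Adj y z → y ∉ X → z ∉ X → s(y, z) ∉ Eb → labR y = labR z
  rc : ∀ a : α, {e : Sym2 V | e ∈ G.edgeSet ∧ (∀ v ∈ e, v ∉ X ∧ labR v = a) ∧ e ∉ Eb}.ncard
    + {y : V | y ∈ R ∧ (∃ x ∈ X, G.Adj x y) ∧ labR y = a}.ncard ≤ 4
  /-- blue `H`-edges without blue star vertex -/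
  b : ∀ y z, G.Adj y z → y ∉ X → z ∉ X → s(y, z) ∈ Eb → ¬ BB G X R y → ¬ BB G X R z →
    labB y = labB z
  bc : ∀ a : β, {e : Sym2 V | e ∈ G.edgeSet ∧ (∀ v ∈ e, v ∉ X ∧ ¬ BB G X R v ∧ labB v = a) ∧
    e ∈ Eb}.ncard ≤ 4

/-- the red edges -/
def CutRed (X R : Set V) (Eb : Set (Sym2 V)) (e : Sym2 V) : Prop :=
  ((∃ x ∈ e, x ∈ X) ∧ ∃ y ∈ e, y ∈ R ∧ y ∉ X) ∨ ((¬ ∃ x ∈ e, x ∈ X) ∧ e ∉ Eb)

open Classical in
/-- the colouring, red = `true` -/
noncomputable def cutCol (X R : Set V) (Eb : Set (Sym2 V)) (e : Sym2 V) : Bool :=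
  decide (CutRed X R Eb e)

theorem cutCol_true {X R : Set V} {Eb : Set (Sym2 V)} {e : Sym2 V} :
    cutCol X R Eb e = true ↔ CutRed X R Eb e := by
  classical
  unfold cutCol
  exact decide_eq_true_iff

theorem cutCol_spoke {X R : Set V} {Eb : Set (Sym2 V)} {x y : V} (hx : x ∈ X) (hy : y ∉ X) :
    (cutCol X R Eb s(x, y) = true ↔ y ∈ R) := by
  rw [cutCol_true]
  constructor
  · rintro (⟨_, z, hz, h1, h2⟩ | ⟨h, _⟩)
    · rw [Sym2.mem_iff] at hz
      rcases hz with rfl | rfl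
      · exact absurd hx h2
      · exact h1
    · exact absurd ⟨x, by simp, hx⟩ h
  · intro h
    exact Or.inl ⟨⟨x, by simp, hx⟩, y, by simp, h, hy⟩

theorem cutCol_H {X R : Set V} {Eb : Set (Sym2 V)} {y z : V} (hy : y ∉ X) (hz : z ∉ X) :
    (cutCol X R Eb s(y, z) = true ↔ s(y, z) ∉ Eb) := by
  rw [cutCol_true]
  have h0 : ¬ ∃ x ∈ s(y, z), x ∈ X := by
    rintro ⟨x, hx, hx'⟩
    rw [Sym2.mem_iff] at hx
    rcases hx with rfl | rfl
    · exact hy hx'
    · exact hz hx'
  constructor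
  · rintro (⟨h, _⟩ | ⟨_, h⟩)
    · exact absurd h h0
    · exact h
  · intro h
    exact Or.inr ⟨h0, h⟩

/-- the labels of an edge (a set with one element) -/
def cutLab (G : SimpleGraph V) (X R : Set V) (Eb : Set (Sym2 V)) {α β : Type*}
    (labR : V → α) (labB : V → β) (e : Sym2 V) : Set (α ⊕ V ⊕ β) :=
  {l | (cutCol X R Eb e = true ∧ ∃ y ∈ e, y ∉ X ∧ l = Sum.inl (labR y)) ∨
    (cutCol X R Eb e = false ∧ ∃ y ∈ e, BB G X R y ∧ ∃ x ∈ X, G.Adj x y ∧ l = Sum.inr (Sum.inl x)) ∨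
    (cutCol X R Eb e = false ∧ (∀ v ∈ e, ¬ BB G X R v) ∧
      ∃ v ∈ e, l = Sum.inr (Sum.inr (labB v)))}

section

variable {G : SimpleGraph V} {X R : Set V} {Eb : Set (Sym2 V)} {α β : Type*}
  {labR : V → α} {labB : V → β}

theorem CutSol.notBB_of_mem (S : CutSol G X R Eb labR labB) {x : V} (hx : x ∈ X) :
    ¬ BB G X R x := by
  rintro ⟨_, x', hx', h⟩
  exact S.ind x' hx' x hx h

theorem CutSol.notX (S : CutSol G X R Eb labR labB) {x y : V} (hx : x ∈ X) (h : G.Adj x y) :
    y ∉ X := fun hy => S.ind x hx y hy h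

/-- red edges at a vertex which is not in `X` -/
theorem CutSol.lab_red (S : CutSol G X R Eb labR labB) {x y : V} (h : G.Adj x y) (hx : x ∉ X)
    (hc : cutCol X R Eb s(x, y) = true) :
    cutLab G X R Eb labR labB s(x, y) = {Sum.inl (labR x)} := by
  have hy : y ∉ X → labR y = labR x := by
    intro hy
    have := (cutCol_H hx hy).1 hc
    exact (S.r x y h hx hy this).symm
  ext l
  simp only [cutLab, Set.mem_ofPred_eq, hc, true_and, Set.mem_singleton_iff]
  constructor
  · rintro (⟨z, hz, hzX, rfl⟩ | ⟨h1, _⟩ | ⟨h1, _⟩)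
    · rw [Sym2.mem_iff] at hz
      rcases hz with rfl | rfl
      · rfl
      · rw [hy hzX]
    · exact absurd h1 (by simp)
    · exact absurd h1 (by simp)
  · rintro rfl
    exact Or.inl ⟨x, by simp, hx, rfl⟩

/-- blue edges at a blue star vertex -/
theorem CutSol.lab_star (S : CutSol G X R Eb labR labB) {x y z : V} (hx : x ∈ X) (hxy : G.Adj x y)
    (hyR : y ∉ R) (h : G.Adj y z) (hc : cutCol X R Eb s(y, z) = false) :
    cutLab G X R Eb labR labB s(y, z) = {Sum.inr (Sum.inl x)} := by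
  have hy : y ∉ X := S.notX hx hxy
  have hyB : BB G X R y := ⟨hyR, x, hx, hxy⟩
  have hz : ¬ BB G X R z := by
    by_cases hzX : z ∈ X
    · exact S.notBB_of_mem hzX
    · have : s(y, z) ∈ Eb := by
        by_contra h'
        rw [(cutCol_H hy hzX).2 h'] at hc
        exact absurd hc (by simp)
      exact (S.b1 y z h hy hzX this hyB).1
  ext l
  simp only [cutLab, Set.mem_ofPred_eq, hc, true_and, Set.mem_singleton_iff]
  constructor
  · rintro (⟨h1, _⟩ | ⟨w, hw, hwB, x', hx', hx'w, rfl⟩ | ⟨h1, _⟩)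
    · exact absurd h1 (by simp)
    · rw [Sym2.mem_iff] at hw
      rcases hw with rfl | rfl
      · rw [S.one _ x' hx' x hx hx'w hxy]
      · exact absurd hwB hz
    · exact absurd hyB (h1 y (by simp))
  · rintro rfl
    exact Or.inr (Or.inl ⟨y, by simp, hyB, x, hx, hxy, rfl⟩)

/-- blue edges without blue star vertex -/
theorem CutSol.lab_blue (S : CutSol G X R Eb labR labB) {x y : V} (h : G.Adj x y) (hx : x ∉ X)
    (hy : y ∉ X) (hxB : ¬ BB G X R x) (hyB : ¬ BB G X R y)
    (hc : cutCol X R Eb s(x, y) = false) :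
    cutLab G X R Eb labR labB s(x, y) = {Sum.inr (Sum.inr (labB x))} := by
  have hE : s(x, y) ∈ Eb := by
    by_contra h'
    rw [(cutCol_H hx hy).2 h'] at hc
    exact absurd hc (by simp)
  have hl : labB x = labB y := S.b x y h hx hy hE hxB hyB
  ext l
  simp only [cutLab, Set.mem_ofPred_eq, hc, true_and, Set.mem_singleton_iff]
  constructor
  · rintro (⟨h1, _⟩ | ⟨w, hw, hwB, _⟩ | ⟨_, w, hw, rfl⟩)
    · exact absurd h1 (by simp)
    · rw [Sym2.mem_iff] at hw
      rcases hw with rfl | rfl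
      · exact absurd hwB hxB
      · exact absurd hwB hyB
    · rw [Sym2.mem_iff] at hw
      rcases hw with rfl | rfl
      · rfl
      · rw [hl]
  · rintro rfl
    refine Or.inr (Or.inr ⟨?_, x, by simp, rfl⟩)
    intro v hv
    rw [Sym2.mem_iff] at hv
    rcases hv with rfl | rfl
    · exact hxB
    · exact hyB

/-- a blue edge at a vertex outside `X` which is not a blue star vertex has its other end outside `X` -/
theorem CutSol.notX_of_blue (_S : CutSol G X R Eb labR labB) {x y : V} (h : G.Adj x y) (hx : x ∉ X)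
    (hxB : ¬ BB G X R x) (hc : cutCol X R Eb s(x, y) = false) : y ∉ X := by
  intro hy
  have h1 : x ∉ R := by
    intro hR
    rw [Sym2.eq_swap, (cutCol_spoke hy hx).2 hR] at hc
    exact absurd hc (by simp)
  exact hxB ⟨h1, y, hy, h.symm⟩

theorem CutSol.mem_Eb {x y : V} (hx : x ∉ X) (hy : y ∉ X)
    (hc : cutCol X R Eb s(x, y) = false) : s(x, y) ∈ Eb := by
  by_contra h'
  rw [(cutCol_H hx hy).2 h'] at hc
  exact absurd hc (by simp)

/-- adjacent edges of the same colour have the same label -/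
theorem CutSol.adj (S : CutSol G X R Eb labR labB) {x y z : V} (hxy : G.Adj x y) (hxz : G.Adj x z)
    (hc : cutCol X R Eb s(x, y) = cutCol X R Eb s(x, z)) :
    cutLab G X R Eb labR labB s(x, y) = cutLab G X R Eb labR labB s(x, z) := by
  cases h : cutCol X R Eb s(x, z) with
  | true =>
    rw [h] at hc
    by_cases hx : x ∈ X
    · have h1 := (cutCol_spoke (R := R) (Eb := Eb) hx (S.notX hx hxy)).1 hc
      have h2 := (cutCol_spoke (R := R) (Eb := Eb) hx (S.notX hx hxz)).1 h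
      rw [S.unR x hx y z hxy h1 hxz h2]
    · rw [S.lab_red hxy hx hc, S.lab_red hxz hx h]
  | false =>
    rw [h] at hc
    by_cases hx : x ∈ X
    · have h1 : y ∉ R := fun hR => by
        rw [(cutCol_spoke hx (S.notX hx hxy)).2 hR] at hc
        exact absurd hc (by simp)
      have h2 : z ∉ R := fun hR => by
        rw [(cutCol_spoke hx (S.notX hx hxz)).2 hR] at h
        exact absurd h (by simp)
      rw [Sym2.eq_swap] at hc h
      rw [Sym2.eq_swap, S.lab_star hx hxy h1 hxy.symm hc, Sym2.eq_swap (a := x),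
        S.lab_star hx hxz h2 hxz.symm h]
    · by_cases hxB : BB G X R x
      · obtain ⟨hxR, x0, hx0, hx0x⟩ := hxB
        rw [S.lab_star hx0 hx0x hxR hxy hc, S.lab_star hx0 hx0x hxR hxz h]
      · have hy := S.notX_of_blue hxy hx hxB hc
        have hz := S.notX_of_blue hxz hx hxB h
        have hyE := CutSol.mem_Eb hx hy hc
        have hzE := CutSol.mem_Eb hx hz h
        by_cases hyB : BB G X R y
        · have := (S.b1 y x hxy.symm hy hx (by rw [Sym2.eq_swap]; exact hyE) hyB).2.2 z hxz hz hzE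
          rw [this]
        · by_cases hzB : BB G X R z
          · have := (S.b1 z x hxz.symm hz hx (by rw [Sym2.eq_swap]; exact hzE) hzB).2.2 y hxy hy hyE
            rw [this]
          · rw [S.lab_blue hxy hx hy hxB hyB hc, S.lab_blue hxz hx hz hxB hzB h]

/-- every edge has a label -/
theorem CutSol.lab_nonempty (S : CutSol G X R Eb labR labB) {x y : V} (h : G.Adj x y) :
    (cutLab G X R Eb labR labB s(x, y)).Nonempty := by
  cases hc : cutCol X R Eb s(x, y) with
  | true =>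
    by_cases hx : x ∈ X
    · exact ⟨_, Or.inl ⟨hc, y, by simp, S.notX hx h, rfl⟩⟩
    · exact ⟨_, Or.inl ⟨hc, x, by simp, hx, rfl⟩⟩
  | false =>
    by_cases hB : ∃ v ∈ s(x, y), BB G X R v
    · obtain ⟨v, hv, hB⟩ := hB
      obtain ⟨_, x0, hx0, h0⟩ := id hB
      exact ⟨_, Or.inr (Or.inl ⟨hc, v, hv, hB, x0, hx0, h0, rfl⟩)⟩
    · exact ⟨_, Or.inr (Or.inr ⟨hc, fun v hv hB' => hB ⟨v, hv, hB'⟩, x, by simp, rfl⟩)⟩

theorem CutSol.count_red [Finite V] (S : CutSol G X R Eb labR labB) (a : α) :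
    {e : Sym2 V | e ∈ G.edgeSet ∧ cutCol X R Eb e = true ∧
      Sum.inl a ∈ cutLab G X R Eb labR labB e}.ncard ≤ 4 := by
  classical
  let cen : V → V := fun y => if h : ∃ x ∈ X, G.Adj x y then h.choose else y
  refine le_trans ?_ (S.rc a)
  refine le_trans (Set.ncard_le_ncard (t := {e : Sym2 V | e ∈ G.edgeSet ∧
    (∀ v ∈ e, v ∉ X ∧ labR v = a) ∧ e ∉ Eb} ∪ (fun y => s(cen y, y)) ''
    {y : V | y ∈ R ∧ (∃ x ∈ X, G.Adj x y) ∧ labR y = a}) ?_ (Set.toFinite _)) ?_
  · rintro e ⟨he, hc, hl⟩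
    induction e using Sym2.ind with
    | _ x y =>
    rw [SimpleGraph.mem_edgeSet] at he
    -- spoke
    have hsp : ∀ x y, G.Adj x y → x ∈ X → cutCol X R Eb s(x, y) = true →
        Sum.inl a ∈ cutLab G X R Eb labR labB s(x, y) → s(x, y) ∈ (fun y => s(cen y, y)) ''
        {y : V | y ∈ R ∧ (∃ x ∈ X, G.Adj x y) ∧ labR y = a} := by
      intro x y he hx hc hl
      have hyR := (cutCol_spoke (R := R) (Eb := Eb) hx (S.notX hx he)).1 hc
      rw [Sym2.eq_swap] at hl hc
      rw [S.lab_red he.symm (S.notX hx he) hc, Set.mem_singleton_iff, Sum.inl.injEq] at hl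
      have hex : ∃ x ∈ X, G.Adj x y := ⟨x, hx, he⟩
      refine ⟨y, ⟨hyR, hex, hl.symm⟩, ?_⟩
      have h1 : cen y = x := by
        have h2 : cen y = hex.choose := dif_pos hex
        rw [h2]
        exact S.one y _ hex.choose_spec.1 x hx hex.choose_spec.2 he
      simp only [h1]
    by_cases hx : x ∈ X
    · exact Or.inr (hsp x y he hx hc hl)
    · by_cases hy : y ∈ X
      · right
        rw [Sym2.eq_swap] at hc hl ⊢
        exact hsp y x he.symm hy hc hl
      · left
        have hE := (cutCol_H hx hy).1 hc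
        rw [S.lab_red he hx hc, Set.mem_singleton_iff, Sum.inl.injEq] at hl
        have hxy := S.r x y he hx hy hE
        refine ⟨he, ?_, hE⟩
        intro v hv
        rw [Sym2.mem_iff] at hv
        rcases hv with rfl | rfl
        · exact ⟨hx, hl.symm⟩
        · exact ⟨hy, by rw [← hxy]; exact hl.symm⟩
  · exact (Set.ncard_union_le _ _).trans
      (Nat.add_le_add_left (Set.ncard_image_le (Set.toFinite _)) _)

theorem CutSol.count_star [Fintype V] [DecidableRel G.Adj] (hreg : G.IsRegularOfDegree 3)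
    (S : CutSol G X R Eb labR labB) (x : V) :
    {e : Sym2 V | e ∈ G.edgeSet ∧ cutCol X R Eb e = false ∧
      Sum.inr (Sum.inl x) ∈ cutLab G X R Eb labR labB e}.ncard ≤ 4 := by
  classical
  by_cases hx : x ∈ X
  swap
  · have : {e : Sym2 V | e ∈ G.edgeSet ∧ cutCol X R Eb e = false ∧
      Sum.inr (Sum.inl x) ∈ cutLab G X R Eb labR labB e} = ∅ := by
      ext e
      simp only [Set.mem_ofPred_eq, Set.mem_empty_iff_false, iff_false]
      rintro ⟨_, hc, h | ⟨_, y, _, _, x', hx', _, h⟩ | ⟨_, _, v, _, h⟩⟩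
      · rw [hc] at h; exact absurd h.1 (by simp)
      · simp only [Sum.inr.injEq, Sum.inl.injEq] at h
        rw [h] at hx
        exact hx hx'
      · simp at h
    rw [this]
    simp
  -- the two blue neighbours
  obtain ⟨r0, hr0, hr0R⟩ := S.exR x hx
  have hN : ((G.neighborFinset x).filter (fun y => y ∉ R)).card = 2 := by
    have h1 : (G.neighborFinset x).filter (fun y => y ∉ R) = (G.neighborFinset x).erase r0 := by
      ext y
      simp only [Finset.mem_filter, SimpleGraph.mem_neighborFinset, Finset.mem_erase]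
      constructor
      · rintro ⟨h1, h2⟩
        exact ⟨fun h => h2 (h ▸ hr0R), h1⟩
      · rintro ⟨h1, h2⟩
        exact ⟨h2, fun h => h1 (S.unR x hx y r0 h2 h hr0 hr0R)⟩
    rw [h1, Finset.card_erase_of_mem (by simpa using hr0), SimpleGraph.card_neighborFinset_eq_degree,
      hreg x]
  -- blue edges at a blue neighbour
  have hat : ∀ y ∈ (G.neighborFinset x).filter (fun y => y ∉ R),
      {e : Sym2 V | e ∈ G.edgeSet ∧ cutCol X R Eb e = false ∧ y ∈ e}.ncard ≤ 2 := by
    intro y hy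
    simp only [Finset.mem_filter, SimpleGraph.mem_neighborFinset] at hy
    obtain ⟨hxy, hyR⟩ := hy
    have hyX := S.notX hx hxy
    have hyB : BB G X R y := ⟨hyR, x, hx, hxy⟩
    by_cases hz : ∃ z, G.Adj y z ∧ z ∉ X ∧ s(y, z) ∈ Eb
    · obtain ⟨z, h1, h2, h3⟩ := hz
      refine le_trans (Set.ncard_le_ncard (t := {s(x, y), s(y, z)}) ?_ (Set.toFinite _))
        ((Set.ncard_insert_le _ _).trans (by rw [Set.ncard_singleton]))
      rintro e ⟨he, hc, hye⟩
      obtain ⟨w, rfl⟩ := Sym2.mem_iff_exists.1 hye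
      rw [SimpleGraph.mem_edgeSet] at he
      by_cases hw : w ∈ X
      · left
        rw [S.one y w hw x hx he.symm hxy, Sym2.eq_swap]
      · right
        rw [Set.mem_singleton_iff, (S.b1 y z h1 hyX h2 h3 hyB).2.1 w he hw
          (CutSol.mem_Eb hyX hw hc)]
    · refine le_trans (Set.ncard_le_ncard (t := {s(x, y)}) ?_ (Set.toFinite _))
        (by rw [Set.ncard_singleton]; norm_num)
      rintro e ⟨he, hc, hye⟩
      obtain ⟨w, rfl⟩ := Sym2.mem_iff_exists.1 hye
      rw [SimpleGraph.mem_edgeSet] at he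
      by_cases hw : w ∈ X
      · rw [Set.mem_singleton_iff, S.one y w hw x hx he.symm hxy, Sym2.eq_swap]
      · exact absurd ⟨w, he, hw, CutSol.mem_Eb hyX hw hc⟩ hz
  obtain ⟨y1, y2, hne, hpair⟩ := Finset.card_eq_two.1 hN
  have h1 := hat y1 (by rw [hpair]; simp)
  have h2 := hat y2 (by rw [hpair]; simp)
  refine le_trans (Set.ncard_le_ncard (t := {e : Sym2 V | e ∈ G.edgeSet ∧ cutCol X R Eb e = false ∧
    y1 ∈ e} ∪ {e : Sym2 V | e ∈ G.edgeSet ∧ cutCol X R Eb e = false ∧ y2 ∈ e}) ?_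
    (Set.toFinite _)) ((Set.ncard_union_le _ _).trans (by omega))
  rintro e ⟨he, hc, h | ⟨_, y, hye, hyB, x', hx', hx'y, h⟩ | ⟨_, _, v, _, h⟩⟩
  · rw [hc] at h; exact absurd h.1 (by simp)
  · simp only [Sum.inr.injEq, Sum.inl.injEq] at h
    subst h
    have : y ∈ (G.neighborFinset x).filter (fun y => y ∉ R) := by
      simp only [Finset.mem_filter, SimpleGraph.mem_neighborFinset]
      exact ⟨hx'y, hyB.1⟩
    rw [hpair] at this
    simp only [Finset.mem_insert, Finset.mem_singleton] at this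
    rcases this with rfl | rfl
    · exact Or.inl ⟨he, hc, hye⟩
    · exact Or.inr ⟨he, hc, hye⟩
  · simp at h

theorem CutSol.count_blue [Finite V] (S : CutSol G X R Eb labR labB) (a : β) :
    {e : Sym2 V | e ∈ G.edgeSet ∧ cutCol X R Eb e = false ∧
      Sum.inr (Sum.inr a) ∈ cutLab G X R Eb labR labB e}.ncard ≤ 4 := by
  refine le_trans (Set.ncard_le_ncard ?_ (Set.toFinite _)) (S.bc a)
  rintro e ⟨he, hc, h⟩
  have hB : ∀ v ∈ e, ¬ BB G X R v := by
    rcases h with ⟨h, _⟩ | ⟨_, y, _, _, x', _, _, h⟩ | ⟨_, h, _⟩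
    · rw [hc] at h; exact absurd h (by simp)
    · simp at h
    · exact h
  induction e using Sym2.ind with
  | _ x y =>
  rw [SimpleGraph.mem_edgeSet] at he
  have hx : x ∉ X := by
    intro hx
    have hyX := S.notX hx he
    have hyR : y ∉ R := fun hR => by
      rw [(cutCol_spoke hx hyX).2 hR] at hc
      exact absurd hc (by simp)
    exact hB y (by simp) ⟨hyR, x, hx, he⟩
  have hy : y ∉ X := S.notX_of_blue he hx (hB x (by simp)) hc
  have hE := CutSol.mem_Eb hx hy hc
  have hl := S.b x y he hx hy hE (hB x (by simp)) (hB y (by simp))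
  rw [S.lab_blue he hx hy (hB x (by simp)) (hB y (by simp)) hc, Set.mem_singleton_iff,
    Sum.inr.injEq, Sum.inr.injEq] at h
  refine ⟨he, ?_, hE⟩
  intro v hv
  rw [Sym2.mem_iff] at hv
  rcases hv with rfl | rfl
  · exact ⟨hx, hB _ (by simp), h.symm⟩
  · exact ⟨hy, hB _ (by simp), by rw [← hl]; exact h.symm⟩

/-- **The cut problem.** -/
theorem CutSol.main [Fintype V] [DecidableRel G.Adj] (hreg : G.IsRegularOfDegree 3)
    (S : CutSol G X R Eb labR labB) (b : Bool) (v : V) :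
    (compE G (cutCol X R Eb) b v).ncard ≤ 4 := by
  refine cert' (lab := cutLab G X R Eb labR labB) (fun x y z h1 h2 h3 => S.adj h1 h2 h3) ?_ b v
  intro b s
  rcases Set.eq_empty_or_nonempty {e : Sym2 V | e ∈ G.edgeSet ∧ cutCol X R Eb e = b ∧
    cutLab G X R Eb labR labB e = s} with h | ⟨e0, he0, hc0, hl0⟩
  · rw [h]; simp
  obtain ⟨l, hl⟩ : s.Nonempty := by
    rw [← hl0]
    induction e0 using Sym2.ind with
    | _ x y => exact S.lab_nonempty he0
  have hsub : {e : Sym2 V | e ∈ G.edgeSet ∧ cutCol X R Eb e = b ∧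
      cutLab G X R Eb labR labB e = s} ⊆ {e : Sym2 V | e ∈ G.edgeSet ∧ cutCol X R Eb e = b ∧
      l ∈ cutLab G X R Eb labR labB e} := by
    rintro e ⟨he, hc, hs⟩
    exact ⟨he, hc, by rw [hs]; exact hl⟩
  refine (Set.ncard_le_ncard hsub (Set.toFinite _)).trans ?_
  have hempty : ∀ P : Sym2 V → Prop, (∀ e, ¬ P e) → {e | P e}.ncard ≤ 4 := by
    intro P hP
    have : {e | P e} = ∅ := by
      ext e
      simp [hP e]
    rw [this]
    simp
  rcases l with a | x | a <;> cases b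
  · refine hempty _ ?_
    rintro e ⟨_, hc, h | ⟨_, y, _, _, x', _, _, h⟩ | ⟨_, _, v, _, h⟩⟩
    · rw [hc] at h; exact absurd h.1 (by simp)
    · simp at h
    · simp at h
  · exact S.count_red a
  · exact S.count_star hreg x
  · refine hempty _ ?_
    rintro e ⟨_, hc, ⟨_, y, _, _, h⟩ | ⟨h, _⟩ | ⟨h, _⟩⟩
    · simp at h
    · rw [hc] at h; exact absurd h (by simp)
    · rw [hc] at h; exact absurd h (by simp)
  · exact S.count_blue a
  · refine hempty _ ?_
    rintro e ⟨_, hc, ⟨_, y, _, _, h⟩ | ⟨h, _⟩ | ⟨h, _⟩⟩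
    · simp at h
    · rw [hc] at h; exact absurd h (by simp)
    · rw [hc] at h; exact absurd h (by simp)

end

end Pool.Agent.JW
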