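import Mathlib

/-!
# Indexing the cycles of a permutation
-/

set_option autoImplicit false

namespace Pool.Agent.JW

open Function

/-- an indexing of the cycles of a permutation -/
structure CycIdx {Y : Type*} (σ : Equiv.Perm Y) where
  idx : Y → ℕ
  len : Y → ℕ
  rep : Y → Y
  idx_lt : ∀ y, idx y < len y
  len_s : ∀ y, len (σ y) = len y
  rep_s : ∀ y, rep (σ y) = rep y
  it : ∀ y, (σ^[idx y]) (rep y) = y
  idx_s : ∀ y, idx (σ y) = if idx y + 1 < len y then idx y + 1 else 0
  len_it : ∀ y, (σ^[len y]) y = y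
  len_le : ∀ y n, 0 < n → (σ^[n]) y = y → len y ≤ n
  rep_it' : ∀ y n, rep ((σ^[n]) (rep y)) = rep y
  len_it' : ∀ y n, len ((σ^[n]) (rep y)) = len y
  idx_it' : ∀ y n, n < len y → idx ((σ^[n]) (rep y)) = n

theorem cyc_index {Y : Type*} [Finite Y] (σ : Equiv.Perm Y) : Nonempty (CycIdx σ) := by
  classical
  let st : Setoid Y := Equiv.Perm.SameCycle.setoid σ
  let rep : Y → Y := fun y => (Quotient.mk st y).out
  have hrep : ∀ y, σ.SameCycle (rep y) y := fun y => Quotient.exact (Quotient.out_eq (Quotient.mk st y))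
  have hrep_s : ∀ y, rep (σ y) = rep y := by
    intro y
    have h : (Quotient.mk st (σ y)) = Quotient.mk st y := by
      apply Quotient.sound
      exact ⟨-1, by simp⟩
    simp only [rep, h]
  have hper : ∀ y, y ∈ periodicPts σ := by
    intro y
    rw [mem_periodicPts]
    refine ⟨orderOf σ, orderOf_pos σ, ?_⟩
    simp [IsPeriodicPt, IsFixedPt, Equiv.Perm.iterate_eq_pow, pow_orderOf_eq_one]
  have hex : ∀ y, ∃ n, (σ^[n]) (rep y) = y := by
    intro y
    obtain ⟨n, hn⟩ := (hrep y).exists_nat_pow_eq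
    exact ⟨n, by rw [Equiv.Perm.iterate_eq_pow]; exact hn⟩
  have hpos : ∀ y, 0 < minimalPeriod σ (rep y) := fun y =>
    minimalPeriod_pos_of_mem_periodicPts (hper _)
  have hex2 : ∀ y, ∃ n, n < minimalPeriod σ (rep y) ∧ (σ^[n]) (rep y) = y := by
    intro y
    obtain ⟨n, hn⟩ := hex y
    refine ⟨n % minimalPeriod σ (rep y), Nat.mod_lt _ (hpos y), ?_⟩
    rw [iterate_mod_minimalPeriod_eq, hn]
  choose idx hidx1 hidx2 using hex2
  have hlen : ∀ y, minimalPeriod σ (rep y) = minimalPeriod σ y := by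
    intro y
    conv_rhs => rw [← hidx2 y]
    rw [minimalPeriod_apply_iterate (hper _)]
  have hrit : ∀ y n, rep ((σ^[n]) y) = rep y := by
    intro y n
    induction n with
    | zero => rfl
    | succ n ih => rw [iterate_succ_apply', hrep_s, ih]
  have hrr : ∀ y, rep (rep y) = rep y := by
    intro y
    conv_rhs => rw [← hidx2 y]
    rw [hrit]
  refine ⟨⟨idx, fun y => minimalPeriod σ (rep y), rep, hidx1, fun y => by rw [hrep_s], hrep_s,
    hidx2, ?_, ?_, ?_, ?_, ?_, ?_⟩⟩
  · intro y
    have h1 : (σ^[idx y + 1]) (rep y) = σ y := by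
      rw [iterate_succ_apply', hidx2]
    have h2 : (σ^[idx (σ y)]) (rep y) = σ y := by
      have := hidx2 (σ y)
      rwa [hrep_s] at this
    have h3 : idx (σ y) < minimalPeriod σ (rep y) := by
      have := hidx1 (σ y)
      rwa [hrep_s] at this
    split_ifs with h
    · exact (iterate_eq_iterate_iff_of_lt_minimalPeriod h3 h).1 (h2.trans h1.symm)
    · have h4 : idx y + 1 = minimalPeriod σ (rep y) := by
        have := hidx1 y
        omega
      rw [h4, iterate_minimalPeriod] at h1
      refine (iterate_eq_iterate_iff_of_lt_minimalPeriod h3 (hpos y)).1 (h2.trans ?_)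
      rw [← h1]
      rfl
  · intro y
    show (σ^[minimalPeriod σ (rep y)]) y = y
    rw [hlen, iterate_minimalPeriod]
  · intro y n hn h
    show minimalPeriod σ (rep y) ≤ n
    rw [hlen]
    exact IsPeriodicPt.minimalPeriod_le hn h
  · intro y n
    rw [hrit, hrr]
  · intro y n
    show minimalPeriod σ (rep ((σ^[n]) (rep y))) = minimalPeriod σ (rep y)
    rw [hrit, hrr]
  · intro y n hn
    have h1 := hidx2 ((σ^[n]) (rep y))
    have h2 := hidx1 ((σ^[n]) (rep y))
    rw [hrit, hrr] at h1 h2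
    exact (iterate_eq_iterate_iff_of_lt_minimalPeriod h2 hn).1 h1

end Pool.Agent.JW
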