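import Pool.Agent.JW.Invol

/-!
# Equitable colourings of two laminar families
-/

set_option autoImplicit false

namespace Pool.Agent.JW

variable {E : Type*} [DecidableEq E]

/-- a laminar family -/
def Laminar (F : Finset (Finset E)) : Prop :=
  ∀ A ∈ F, ∀ B ∈ F, A ⊆ B ∨ B ⊆ A ∨ Disjoint A B

/-- the elements of `B ∩ P` which are not paired inside `B` -/
def looseIn (P : Finset E) (m : E → E) (B : Finset E) : Finset E :=
  (B ∩ P).filter (fun e => m e = e ∨ m e ∉ B)

theorem mem_looseIn {P : Finset E} {m : E → E} {B : Finset E} {e : E} :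
    e ∈ looseIn P m B ↔ (e ∈ B ∧ e ∈ P) ∧ (m e = e ∨ m e ∉ B) := by
  unfold looseIn
  rw [Finset.mem_filter, Finset.mem_inter]

/-- an involution of a finite set with at most one fixed point -/
theorem exists_invol (S : Finset E) : ∃ τ : E → E, (∀ e, τ (τ e) = e) ∧ (∀ e, e ∉ S → τ e = e) ∧
    (∀ e ∈ S, τ e ∈ S) ∧ ∀ e ∈ S, ∀ f ∈ S, τ e = e → τ f = f → e = f := by
  classical
  let q := S.equivFin
  let τ : E → E := fun x => if h : x ∈ S then (q.symm (Fin.rev (q ⟨x, h⟩))).1 else x
  have h1 : ∀ x (h : x ∈ S), τ x = (q.symm (Fin.rev (q ⟨x, h⟩))).1 := fun x h => by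
    simp only [τ, dif_pos h]
  have h2 : ∀ x (h : x ∈ S), τ x ∈ S := fun x h => by rw [h1 x h]; exact (q.symm _).2
  have h3 : ∀ x, x ∉ S → τ x = x := fun x h => by simp only [τ, dif_neg h]
  refine ⟨τ, ?_, h3, h2, ?_⟩
  · intro x
    by_cases h : x ∈ S
    · rw [h1 _ (h2 x h)]
      have h4 : (⟨τ x, h2 x h⟩ : {y // y ∈ S}) = q.symm (Fin.rev (q ⟨x, h⟩)) := Subtype.ext (h1 x h)
      rw [h4]
      simp
    · rw [h3 x h, h3 x h]
  · intro x hx y hy hx' hy'
    rw [h1 x hx] at hx'
    rw [h1 y hy] at hy'
    have h4 : q.symm (Fin.rev (q ⟨x, hx⟩)) = ⟨x, hx⟩ := Subtype.ext hx'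
    have h5 : q.symm (Fin.rev (q ⟨y, hy⟩)) = ⟨y, hy⟩ := Subtype.ext hy'
    rw [Equiv.symm_apply_eq] at h4 h5
    have h6 := congrArg Fin.val h4
    have h7 := congrArg Fin.val h5
    rw [Fin.val_rev] at h6 h7
    have h8 : q ⟨x, hx⟩ = q ⟨y, hy⟩ := by
      apply Fin.ext
      have := (q ⟨x, hx⟩).2
      have := (q ⟨y, hy⟩).2
      omega
    exact congrArg Subtype.val (q.injective h8)

theorem pairing (P : Finset E) (n : ℕ) (F : Finset (Finset E)) (hn : F.card = n) (hF : Laminar F) :
    ∃ m : E → E, (∀ e, m (m e) = e) ∧ (∀ e, e ∉ P → m e = e) ∧ (∀ e ∈ P, m e ∈ P) ∧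
      ∀ B ∈ F, (looseIn P m B).card ≤ 1 := by
  classical
  induction n generalizing F with
  | zero =>
    rw [Finset.card_eq_zero] at hn
    subst hn
    exact ⟨id, fun _ => rfl, fun _ _ => rfl, fun _ h => h, fun B hB => absurd hB (by simp)⟩
  | succ n ih =>
    have hne : F.Nonempty := by
      rw [← Finset.card_pos]; omega
    obtain ⟨B, hB, hBmax⟩ := Finset.exists_max_image F Finset.card hne
    obtain ⟨m, hm, hmP, hmP', hmF⟩ := ih (F.erase B) (by rw [Finset.card_erase_of_mem hB]; omega)
      (fun A hA C hC => hF A (Finset.mem_of_mem_erase hA) C (Finset.mem_of_mem_erase hC))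
    have hcase : ∀ A ∈ F, A ≠ B → A ⊆ B ∨ Disjoint A B := by
      intro A hA hAB
      rcases hF A hA B hB with h | h | h
      · exact Or.inl h
      · exact absurd (Finset.eq_of_subset_of_card_le h (hBmax A hA)).symm hAB
      · exact Or.inr h
    -- break the pairs crossing `B`
    let m1 : E → E := fun e => if (e ∈ B ↔ m e ∈ B) then m e else e
    have h1a : ∀ e, (e ∈ B ↔ m e ∈ B) → m1 e = m e := fun e h => by simp only [m1, if_pos h]
    have h1b : ∀ e, ¬ (e ∈ B ↔ m e ∈ B) → m1 e = e := fun e h => by simp only [m1, if_neg h]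
    have h1inv : ∀ e, m1 (m1 e) = e := by
      intro e
      by_cases h : (e ∈ B ↔ m e ∈ B)
      · rw [h1a e h, h1a (m e) (by rw [hm]; exact h.symm), hm]
      · rw [h1b e h, h1b e h]
    have h1P : ∀ e, e ∉ P → m1 e = e := by
      intro e he
      by_cases h : (e ∈ B ↔ m e ∈ B)
      · rw [h1a e h, hmP e he]
      · rw [h1b e h]
    have h1P' : ∀ e ∈ P, m1 e ∈ P := by
      intro e he
      by_cases h : (e ∈ B ↔ m e ∈ B)
      · rw [h1a e h]; exact hmP' e he
      · rw [h1b e h]; exact he
    have h1B : ∀ e, e ∈ B → m1 e ∈ B := by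
      intro e he
      by_cases h : (e ∈ B ↔ m e ∈ B)
      · rw [h1a e h]; exact h.mp he
      · rw [h1b e h]; exact he
    set S : Finset E := (B ∩ P).filter (fun e => m1 e = e) with hS
    have hSmem : ∀ e, e ∈ S ↔ (e ∈ B ∧ e ∈ P) ∧ m1 e = e := by
      intro e
      rw [hS, Finset.mem_filter, Finset.mem_inter]
    obtain ⟨τ, hτ, hτ0, hτS, hτ1⟩ := exists_invol S
    let m2 : E → E := fun e => if e ∈ S then τ e else m1 e
    have h2a : ∀ e, e ∈ S → m2 e = τ e := fun e h => by simp only [m2, if_pos h]
    have h2b : ∀ e, e ∉ S → m2 e = m1 e := fun e h => by simp only [m2, if_neg h]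
    have h1S : ∀ e, e ∉ S → m1 e ∉ S := by
      intro e he h
      have h3 := ((hSmem _).mp h).2
      rw [h1inv] at h3
      rw [← h3] at h
      exact he h
    refine ⟨m2, ?_, ?_, ?_, ?_⟩
    · intro e
      by_cases h : e ∈ S
      · rw [h2a e h, h2a _ (hτS e h), hτ]
      · rw [h2b e h, h2b _ (h1S e h), h1inv]
    · intro e he
      have h : e ∉ S := fun h => he ((hSmem e).mp h).1.2
      rw [h2b e h, h1P e he]
    · intro e he
      by_cases h : e ∈ S
      · rw [h2a e h]
        exact ((hSmem _).mp (hτS e h)).1.2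
      · rw [h2b e h]
        exact h1P' e he
    · intro A hA
      by_cases hAB : A = B
      · subst hAB
        rw [Finset.card_le_one]
        intro e he f hf
        rw [mem_looseIn] at he hf
        have key : ∀ x, (x ∈ A ∧ x ∈ P) ∧ (m2 x = x ∨ m2 x ∉ A) → x ∈ S ∧ τ x = x := by
          rintro x ⟨hx, hx'⟩
          by_cases h : x ∈ S
          · refine ⟨h, ?_⟩
            rw [h2a x h] at hx'
            rcases hx' with h3 | h3
            · exact h3
            · exact absurd ((hSmem _).mp (hτS x h)).1.1 h3
          · exfalso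
            rw [h2b x h] at hx'
            rcases hx' with h3 | h3
            · exact h ((hSmem x).mpr ⟨hx, h3⟩)
            · exact h3 (h1B x hx.1)
        exact hτ1 e (key e he).1 f (key f hf).1 (key e he).2 (key f hf).2
      · refine le_trans (Finset.card_le_card ?_) (hmF A (Finset.mem_erase.mpr ⟨hAB, hA⟩))
        intro e he
        rw [mem_looseIn] at he ⊢
        refine ⟨he.1, ?_⟩
        rcases hcase A hA hAB with hsub | hdis
        · have heB : e ∈ B := hsub he.1.1
          by_cases hmB : m e ∈ B
          · have h3 : m1 e = m e := h1a e ⟨fun _ => hmB, fun _ => heB⟩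
            by_cases h : e ∈ S
            · left
              rw [← h3]
              exact ((hSmem e).mp h).2
            · rw [h2b e h, h3] at he
              exact he.2
          · right
            exact fun h => hmB (hsub h)
        · have heB : e ∉ B := Finset.disjoint_left.mp hdis he.1.1
          have h : e ∉ S := fun h => heB ((hSmem e).mp h).1.1
          by_cases hmB : m e ∈ B
          · right
            exact fun h => Finset.disjoint_left.mp hdis h hmB
          · have h3 : m1 e = m e := h1a e ⟨fun h => absurd h heB, fun h => absurd h hmB⟩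
            rw [h2b e h, h3] at he
            exact he.2

theorem half_le {P : Finset E} {m : E → E} {B : Finset E} {s : E → Bool} (hm : ∀ e, m (m e) = e)
    (hmP : ∀ e ∈ P, m e ∈ P) (hs : ∀ e, m e ≠ e → s (m e) = !s e)
    (hl : (looseIn P m B).card ≤ 1) (b : Bool) :
    ((B ∩ P).filter (fun e => s e = b)).card ≤ ((B ∩ P).filter (fun e => s e = !b)).card + 1 := by
  classical
  have h1 : (B ∩ P).filter (fun e => s e = b) ⊆
      ((B ∩ P).filter (fun e => s e = b) \ looseIn P m B) ∪ looseIn P m B := by
    intro e he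
    rw [Finset.mem_union, Finset.mem_sdiff]
    by_cases h : e ∈ looseIn P m B
    · exact Or.inr h
    · exact Or.inl ⟨he, h⟩
  have h2 : ((B ∩ P).filter (fun e => s e = b) \ looseIn P m B).card ≤
      ((B ∩ P).filter (fun e => s e = !b)).card := by
    apply Finset.card_le_card_of_injOn m
    · intro e he
      rw [Finset.mem_coe, Finset.mem_sdiff, Finset.mem_filter, Finset.mem_inter, mem_looseIn] at he
      obtain ⟨⟨h3, h4⟩, h5⟩ := he
      have h6 : m e ≠ e ∧ m e ∈ B := by
        constructor
        · intro h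
          exact h5 ⟨h3, Or.inl h⟩
        · by_contra h
          exact h5 ⟨h3, Or.inr h⟩
      rw [Finset.mem_coe, Finset.mem_filter, Finset.mem_inter]
      refine ⟨⟨h6.2, hmP e h3.2⟩, ?_⟩
      rw [hs e h6.1, h4]
    · intro e _ f _ h
      have := congrArg m h
      rwa [hm, hm] at this
  calc ((B ∩ P).filter (fun e => s e = b)).card
      ≤ (((B ∩ P).filter (fun e => s e = b) \ looseIn P m B) ∪ looseIn P m B).card :=
        Finset.card_le_card h1
    _ ≤ ((B ∩ P).filter (fun e => s e = b) \ looseIn P m B).card + (looseIn P m B).card :=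
        Finset.card_union_le _ _
    _ ≤ _ := by omega

theorem sq_split {u v u' v' : ℕ} (hs : u' + v' = u + v) (h1 : u' ≤ v' + 1) (h2 : v' ≤ u' + 1) :
    u' ^ 2 + v' ^ 2 ≤ u ^ 2 + v ^ 2 ∧ (v + 2 ≤ u → u' ^ 2 + v' ^ 2 < u ^ 2 + v ^ 2) := by
  have h3 : u' = v' ∨ u' = v' + 1 ∨ v' = u' + 1 := by omega
  rcases h3 with rfl | rfl | rfl
  · constructor
    · rcases le_total u v with h | h
      · obtain ⟨k, rfl⟩ := Nat.exists_eq_add_of_le h
        nlinarith
      · obtain ⟨k, rfl⟩ := Nat.exists_eq_add_of_le h
        nlinarith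
    · intro h
      obtain ⟨k, rfl⟩ := Nat.exists_eq_add_of_le h
      nlinarith
  · constructor
    · rcases le_total u v' with h | h
      · obtain ⟨k, rfl⟩ := Nat.exists_eq_add_of_le h
        have : v = u + 2 * k + 1 := by omega
        subst this
        nlinarith
      · obtain ⟨k, rfl⟩ : ∃ k, u = v' + k := Nat.exists_eq_add_of_le h
        rcases Nat.eq_zero_or_pos k with rfl | hk
        · have : v = v' + 1 := by omega
          subst this
          nlinarith
        · obtain ⟨j, rfl⟩ := Nat.exists_eq_add_of_le hk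
          have : v' = v + j := by omega
          subst this
          nlinarith
    · intro h
      obtain ⟨k, rfl⟩ := Nat.exists_eq_add_of_le h
      have h4 : ∃ j, k = 2 * j + 1 := ⟨v' - v - 1, by omega⟩
      obtain ⟨j, rfl⟩ := h4
      have : v' = v + j + 1 := by omega
      subst this
      nlinarith
  · constructor
    · rcases le_total v u' with h | h
      · obtain ⟨k, rfl⟩ := Nat.exists_eq_add_of_le h
        have : u = v + 2 * k + 1 := by omega
        subst this
        nlinarith
      · obtain ⟨k, rfl⟩ : ∃ k, v = u' + k := Nat.exists_eq_add_of_le h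
        rcases Nat.eq_zero_or_pos k with rfl | hk
        · have : u = u' + 1 := by omega
          subst this
          nlinarith
        · obtain ⟨j, rfl⟩ := Nat.exists_eq_add_of_le hk
          have : u' = u + j := by omega
          subst this
          nlinarith
    · intro h
      obtain ⟨k, rfl⟩ := Nat.exists_eq_add_of_le h
      have h4 : ∃ j, k = 2 * j + 1 := ⟨u' - v - 1, by omega⟩
      obtain ⟨j, rfl⟩ := h4
      have : u' = v + j + 1 := by omega
      subst this
      nlinarith

/-- the energy of a colouring -/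
def energy (F : Finset (Finset E)) {d : ℕ} (col : E → Fin d) : ℕ :=
  ∑ B ∈ F, ∑ c, ((B.filter (fun e => col e = c)).card) ^ 2

theorem sum_two {d : ℕ} (g : Fin d → ℕ) {c c' : Fin d} (h : c ≠ c') :
    ∑ x, g x = g c + g c' + ∑ x ∈ (Finset.univ.erase c).erase c', g x := by
  rw [← Finset.add_sum_erase Finset.univ g (Finset.mem_univ c),
    ← Finset.add_sum_erase (Finset.univ.erase c) g (a := c')
      (Finset.mem_erase.mpr ⟨h.symm, Finset.mem_univ _⟩), add_assoc]

/-- **Equitable colourings.** -/
theorem equi [Fintype E] (F1 F2 : Finset (Finset E)) (h1 : Laminar F1) (h2 : Laminar F2) (d : ℕ)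
    (hd : 0 < d) : ∃ col : E → Fin d, ∀ B, B ∈ F1 ∨ B ∈ F2 → ∀ c c',
      (B.filter (fun e => col e = c)).card ≤ (B.filter (fun e => col e = c')).card + 1 := by
  classical
  haveI : Nonempty (Fin d) := ⟨⟨0, hd⟩⟩
  obtain ⟨col, _, hmin⟩ := Finset.exists_min_image (Finset.univ : Finset (E → Fin d))
    (energy (F1 ∪ F2)) Finset.univ_nonempty
  refine ⟨col, ?_⟩
  intro B0 hB0 c c'
  by_contra hlt
  push Not at hlt
  have hcc : c ≠ c' := by
    rintro rfl
    omega
  set P : Finset E := Finset.univ.filter (fun e => col e = c ∨ col e = c') with hP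
  have hPmem : ∀ e, e ∈ P ↔ (col e = c ∨ col e = c') := by
    intro e
    rw [hP, Finset.mem_filter]
    exact ⟨fun h => h.2, fun h => ⟨Finset.mem_univ _, h⟩⟩
  obtain ⟨m, hm, hmP, hmP', hmF⟩ := pairing P _ F1 rfl h1
  obtain ⟨m', hm', hmP2, hmP2', hmF'⟩ := pairing P _ F2 rfl h2
  obtain ⟨s, hs1, hs2⟩ := two_invol m m' hm hm'
  let col' : E → Fin d := fun e => if e ∈ P then (if s e then c else c') else col e
  have hbal : ∀ B ∈ F1 ∪ F2, ∀ b : Bool, ((B ∩ P).filter (fun e => s e = b)).card ≤
      ((B ∩ P).filter (fun e => s e = !b)).card + 1 := by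
    intro B hB b
    rcases Finset.mem_union.mp hB with h | h
    · exact half_le hm hmP' hs1 (hmF B h) b
    · exact half_le hm' hmP2' hs2 (hmF' B h) b
  have hold : ∀ B : Finset E, (B.filter (fun e => col e = c)).card +
      (B.filter (fun e => col e = c')).card = (B ∩ P).card := by
    intro B
    rw [← Finset.card_union_of_disjoint]
    · congr 1
      ext e
      rw [Finset.mem_union, Finset.mem_filter, Finset.mem_filter, Finset.mem_inter, hPmem]
      tauto
    · rw [Finset.disjoint_left]
      intro e he he'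
      rw [Finset.mem_filter] at he he'
      exact hcc (he.2.symm.trans he'.2)
  have hnew1 : ∀ B : Finset E, B.filter (fun e => col' e = c) =
      (B ∩ P).filter (fun e => s e = true) := by
    intro B
    ext e
    rw [Finset.mem_filter, Finset.mem_filter, Finset.mem_inter]
    by_cases he : e ∈ P
    · simp only [col', if_pos he]
      cases hse : s e
      · simp [he, hcc.symm]
      · simp [he]
    · simp only [col', if_neg he]
      have : col e ≠ c := fun h => he ((hPmem e).mpr (Or.inl h))
      simp [he, this]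
  have hnew2 : ∀ B : Finset E, B.filter (fun e => col' e = c') =
      (B ∩ P).filter (fun e => s e = false) := by
    intro B
    ext e
    rw [Finset.mem_filter, Finset.mem_filter, Finset.mem_inter]
    by_cases he : e ∈ P
    · simp only [col', if_pos he]
      cases hse : s e
      · simp [he]
      · simp [he, hcc]
    · simp only [col', if_neg he]
      have : col e ≠ c' := fun h => he ((hPmem e).mpr (Or.inr h))
      simp [he, this]
  have hother : ∀ B : Finset E, ∀ x ∈ (Finset.univ.erase c).erase c',
      B.filter (fun e => col' e = x) = B.filter (fun e => col e = x) := by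
    intro B x hx
    rw [Finset.mem_erase, Finset.mem_erase] at hx
    ext e
    rw [Finset.mem_filter, Finset.mem_filter]
    by_cases he : e ∈ P
    · simp only [col', if_pos he]
      have h3 : col e ≠ x := by
        rintro rfl
        rcases (hPmem e).mp he with h | h
        · exact hx.2.1 h
        · exact hx.1 h
      cases hse : s e
      · simp [h3, Ne.symm hx.1]
      · simp [h3, Ne.symm hx.2.1]
    · simp only [col', if_neg he]
  have hsum : ∀ B : Finset E, ((B ∩ P).filter (fun e => s e = true)).card +
      ((B ∩ P).filter (fun e => s e = false)).card = (B ∩ P).card := by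
    intro B
    rw [← Finset.card_union_of_disjoint]
    · congr 1
      ext e
      rw [Finset.mem_union, Finset.mem_filter, Finset.mem_filter]
      cases s e <;> simp
    · rw [Finset.disjoint_left]
      intro e he he'
      rw [Finset.mem_filter] at he he'
      rw [he.2] at he'
      exact absurd he'.2 (by simp)
  have hB : ∀ B ∈ F1 ∪ F2, (∑ x, ((B.filter (fun e => col' e = x)).card) ^ 2 ≤
      ∑ x, ((B.filter (fun e => col e = x)).card) ^ 2) ∧
      ((B.filter (fun e => col e = c')).card + 2 ≤ (B.filter (fun e => col e = c)).card →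
      ∑ x, ((B.filter (fun e => col' e = x)).card) ^ 2 <
      ∑ x, ((B.filter (fun e => col e = x)).card) ^ 2) := by
    intro B hBF
    rw [sum_two _ hcc, sum_two _ hcc]
    have h3 : ∑ x ∈ (Finset.univ.erase c).erase c', ((B.filter (fun e => col' e = x)).card) ^ 2 =
        ∑ x ∈ (Finset.univ.erase c).erase c', ((B.filter (fun e => col e = x)).card) ^ 2 :=
      Finset.sum_congr rfl (fun x hx => by rw [hother B x hx])
    rw [h3, hnew1, hnew2]
    have h4 := sq_split (u := (B.filter (fun e => col e = c)).card)
      (v := (B.filter (fun e => col e = c')).card)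
      (u' := ((B ∩ P).filter (fun e => s e = true)).card)
      (v' := ((B ∩ P).filter (fun e => s e = false)).card)
      (by rw [hsum, hold]) (by simpa using hbal B hBF true) (by simpa using hbal B hBF false)
    exact ⟨by have := h4.1; omega, fun h => by have := h4.2 h; omega⟩
  have hlt2 : energy (F1 ∪ F2) col' < energy (F1 ∪ F2) col := by
    unfold energy
    apply Finset.sum_lt_sum (fun B hBF => (hB B hBF).1)
    exact ⟨B0, Finset.mem_union.mpr hB0, (hB B0 (Finset.mem_union.mpr hB0)).2 (by omega)⟩
  exact absurd (hmin col' (Finset.mem_univ _)) (by omega)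

end Pool.Agent.JW
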