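import Mathlib

/-!
# Two involutions: a simultaneous 2-colouring
-/

set_option autoImplicit false

namespace Pool.Agent.JW

open Equiv

/-- two fixed-point-free involutions of a finite type have a common proper 2-colouring -/
theorem two_invol_ff {Q : Type*} [Finite Q] (a b : Perm Q) (ha : ∀ q, a (a q) = q)
    (hb : ∀ q, b (b q) = q) (ha0 : ∀ q, a q ≠ q) (hb0 : ∀ q, b q ≠ q) :
    ∃ s : Q → Bool, (∀ q, s (a q) = !s q) ∧ ∀ q, s (b q) = !s q := by
  classical
  set p : Perm Q := a * b with hp
  have haa : a * a = 1 := by ext q; simp [ha]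
  have hbb : b * b = 1 := by ext q; simp [hb]
  have hainv : a⁻¹ = a := by rw [inv_eq_iff_mul_eq_one]; exact haa
  have hbinv : b⁻¹ = b := by rw [inv_eq_iff_mul_eq_one]; exact hbb
  have hconj : a * p * a⁻¹ = p⁻¹ := by
    rw [hp, mul_inv_rev, hainv, hbinv, ← mul_assoc, haa, one_mul]
  have hconjz : ∀ k : ℤ, a * p ^ k = p ^ (-k) * a := by
    intro k
    have h1 : a * p ^ k * a⁻¹ = p ^ (-k) := by
      rw [← conj_zpow, hconj, inv_zpow, zpow_neg]
    rw [← h1, inv_mul_cancel_right]
  have hconjz' : ∀ (k : ℤ) (q : Q), a ((p ^ k) q) = (p ^ (-k)) (a q) := by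
    intro k q
    have := congrArg (fun f : Perm Q => f q) (hconjz k)
    simpa [Perm.mul_apply] using this
  have hbeq : ∀ q, b q = a (p q) := by
    intro q
    rw [hp, Perm.mul_apply, ha]
  -- `a` does not preserve any orbit of `p`
  have hno : ∀ (q : Q) (k : ℤ), (p ^ k) q ≠ a q := by
    intro q k hk
    rcases Int.even_or_odd' k with ⟨m, rfl | rfl⟩
    · apply ha0 ((p ^ m) q)
      rw [hconjz', ← hk, ← Perm.mul_apply, ← zpow_add]
      congr 2
      ring
    · apply hb0 ((p ^ m) q)
      have hp1 : p ((p ^ m) q) = (p ^ (m + 1)) q := by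
        rw [add_comm m 1, zpow_one_add]
        rfl
      rw [hbeq, hp1, hconjz', ← hk, ← Perm.mul_apply, ← zpow_add]
      congr 2
      ring
  -- the orbits
  let st : Setoid Q := Perm.SameCycle.setoid p
  let Ω := Quotient st
  have : Finite Ω := Quotient.finite _
  obtain ⟨n, ⟨ι⟩⟩ := Finite.exists_equiv_fin Ω
  have hsound : ∀ x y : Q, p.SameCycle x y → (Quotient.mk st x) = Quotient.mk st y := by
    intro x y h
    exact Quotient.sound h
  have hexact : ∀ x y : Q, (Quotient.mk st x) = Quotient.mk st y → p.SameCycle x y := by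
    intro x y h
    exact Quotient.exact h
  refine ⟨fun q => decide (ι (Quotient.mk st q) < ι (Quotient.mk st (a q))), ?_, ?_⟩
  · intro q
    have hne : ι (Quotient.mk st q) ≠ ι (Quotient.mk st (a q)) := by
      intro h
      obtain ⟨k, hk⟩ := hexact _ _ (ι.injective h)
      exact hno q k hk
    simp only [ha]
    rcases lt_or_gt_of_ne hne with h | h
    · simp [h, not_lt.2 h.le]
    · simp [h, not_lt.2 h.le]
  · intro q
    have h1 : Quotient.mk st (b q) = Quotient.mk st (a q) := by
      apply hsound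
      rw [hbeq]
      refine ⟨1, ?_⟩
      rw [zpow_one]
      have h := hconjz' 1 q
      rw [zpow_one, zpow_neg, zpow_one] at h
      rw [h]
      exact p.apply_symm_apply _
    have h2 : Quotient.mk st (a (b q)) = Quotient.mk st q := by
      apply hsound
      rw [hbeq, ha]
      exact ⟨-1, by simp⟩
    have hne : ι (Quotient.mk st q) ≠ ι (Quotient.mk st (a q)) := by
      intro h
      obtain ⟨k, hk⟩ := hexact _ _ (ι.injective h)
      exact hno q k hk
    simp only [h1, h2]
    rcases lt_or_gt_of_ne hne with h | h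
    · simp [h, not_lt.2 h.le]
    · simp [h, not_lt.2 h.le]

/-- two involutions of a finite type: a 2-colouring which is proper for all non-trivial pairs of both -/
theorem two_invol {Q : Type*} [Finite Q] (a b : Q → Q) (ha : ∀ q, a (a q) = q)
    (hb : ∀ q, b (b q) = q) :
    ∃ s : Q → Bool, (∀ q, a q ≠ q → s (a q) = !s q) ∧ ∀ q, b q ≠ q → s (b q) = !s q := by
  classical
  -- double the type to remove the fixed points
  let dbl : (Q → Q) → Q × Bool → Q × Bool := fun m q => if m q.1 = q.1 then (q.1, !q.2) else (m q.1, q.2)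
  have hinv : ∀ m : Q → Q, (∀ q, m (m q) = q) → ∀ q, dbl m (dbl m q) = q := by
    intro m hm q
    obtain ⟨q, i⟩ := q
    by_cases h : m q = q
    · simp [dbl, h]
    · have h' : q ≠ m q := fun h2 => h h2.symm
      simp [dbl, h, hm, h']
  have hne : ∀ m : Q → Q, ∀ q, dbl m q ≠ q := by
    intro m q
    obtain ⟨q, i⟩ := q
    by_cases h : m q = q
    · simp [dbl, h]
    · simp [dbl, h]
  let A : Perm (Q × Bool) := ⟨dbl a, dbl a, hinv a ha, hinv a ha⟩
  let B : Perm (Q × Bool) := ⟨dbl b, dbl b, hinv b hb, hinv b hb⟩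
  obtain ⟨s, hs1, hs2⟩ := two_invol_ff A B (hinv a ha) (hinv b hb) (hne a) (hne b)
  refine ⟨fun q => s (q, true), fun q hq => ?_, fun q hq => ?_⟩
  · have h := hs1 (q, true)
    have h2 : A (q, true) = (a q, true) := by
      change dbl a (q, true) = _
      simp [dbl, hq]
    rw [h2] at h
    exact h
  · have h := hs2 (q, true)
    have h2 : B (q, true) = (b q, true) := by
      change dbl b (q, true) = _
      simp [dbl, hq]
    rw [h2] at h
    exact h

end Pool.Agent.JW
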