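import Pool.Agent.JW.Invol

/-!
# Orientations which are 1-in-1-out at prescribed vertices of degree 2
-/

set_option autoImplicit false

namespace Pool.Agent.JW

/-- an orientation `s` of the edges (`s u v`: from `u` to `v`) such that every vertex of `S` (all
vertices of `S` have degree two) has one incoming and one outgoing edge -/
theorem orient {V : Type*} [Finite V] (H : SimpleGraph V) (S : Set V)
    (hS : ∀ y ∈ S, ∃ p q, p ≠ q ∧ ∀ w, H.Adj y w ↔ w = p ∨ w = q) :
    ∃ s : V → V → Prop, (∀ u v, H.Adj u v → (s u v ↔ ¬ s v u)) ∧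
      ∀ y ∈ S, ∃ p q, p ≠ q ∧ (∀ w, H.Adj y w ↔ w = p ∨ w = q) ∧ s p y ∧ s y q := by
  classical
  have hS' : ∀ y, ∃ p q, y ∈ S → p ≠ q ∧ ∀ w, H.Adj y w ↔ w = p ∨ w = q := by
    intro y
    by_cases h : y ∈ S
    · obtain ⟨p, q, h1⟩ := hS y h
      exact ⟨p, q, fun _ => h1⟩
    · exact ⟨y, y, fun h1 => absurd h1 h⟩
  choose p q hpq using hS'
  let D := {d : V × V // H.Adj d.1 d.2}
  let oth : V → V → V := fun y u => if u = p y then q y else p y
  have hoth1 : ∀ y ∈ S, ∀ u, H.Adj u y → H.Adj (oth y u) y := by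
    intro y hy u _
    obtain ⟨-, h2⟩ := hpq y hy
    by_cases hu : u = p y
    · simp only [oth, hu, if_true]
      exact ((h2 _).2 (Or.inr rfl)).symm
    · simp only [oth, hu, if_false]
      exact ((h2 _).2 (Or.inl rfl)).symm
  have hoth2 : ∀ y ∈ S, ∀ u, H.Adj u y → oth y (oth y u) = u := by
    intro y hy u h
    obtain ⟨h1, h2⟩ := hpq y hy
    by_cases hu : u = p y
    · have h3 : q y ≠ p y := fun h => h1 h.symm
      simp [oth, hu, h3]
    · have h3 : u = q y := by
        rcases (h2 u).1 h.symm with h | h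
        · exact absurd h hu
        · exact h
      have h4 : q y ≠ p y := fun h => h1 h.symm
      rw [h3]
      simp [oth, h4]
  have hoth3 : ∀ y ∈ S, ∀ u, H.Adj u y → oth y u ≠ u := by
    intro y hy u h
    obtain ⟨h1, h2⟩ := hpq y hy
    by_cases hu : u = p y
    · have h3 : q y ≠ p y := fun h => h1 h.symm
      simp [oth, hu, h3]
    · simp only [oth, hu, if_false]
      exact fun h => hu h.symm
  let a : D → D := fun d => ⟨(d.1.2, d.1.1), d.2.symm⟩
  let b : D → D := fun d => if h : d.1.2 ∈ S then ⟨(oth d.1.2 d.1.1, d.1.2), hoth1 _ h _ d.2⟩ else d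
  have ha : ∀ d, a (a d) = d := fun d => rfl
  have hb : ∀ d, b (b d) = d := by
    rintro ⟨⟨u, y⟩, hd⟩
    by_cases h : y ∈ S
    · simp only [b, h, dif_pos]
      congr 2
      exact hoth2 y h u hd
    · simp only [b, h, dif_neg, not_false_iff]
  obtain ⟨s, hs1, hs2⟩ := two_invol a b ha hb
  have key1 : ∀ u v (h : H.Adj u v), s ⟨(v, u), h.symm⟩ = !s ⟨(u, v), h⟩ := by
    intro u v h
    refine hs1 ⟨(u, v), h⟩ ?_
    intro h2
    have h3 := congrArg (fun d : D => d.1.1) h2
    exact h.ne h3.symm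
  have key2 : ∀ y ∈ S, ∀ u (h : H.Adj u y) (h' : H.Adj (oth y u) y),
      s ⟨(oth y u, y), h'⟩ = !s ⟨(u, y), h⟩ := by
    intro y hy u h h'
    have h1 := hs2 ⟨(u, y), h⟩
    have h2 : b ⟨(u, y), h⟩ = ⟨(oth y u, y), h'⟩ := by
      simp only [b, hy, dif_pos]
    rw [h2] at h1
    refine h1 ?_
    intro h3
    have h4 := congrArg (fun d : D => d.1.1) h3
    exact hoth3 y hy u h h4
  refine ⟨fun u v => ∃ h : H.Adj u v, s ⟨(u, v), h⟩ = true, ?_, ?_⟩
  · intro u v h
    have h1 := key1 u v h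
    constructor
    · rintro ⟨h2, h3⟩ ⟨h4, h5⟩
      rw [h3] at h1
      rw [h1] at h5
      exact absurd h5 (by simp)
    · intro h2
      refine ⟨h, ?_⟩
      by_contra h3
      rw [Bool.not_eq_true] at h3
      rw [h3] at h1
      exact h2 ⟨h.symm, h1⟩
  · intro y hy
    obtain ⟨h1, h2⟩ := hpq y hy
    have hp : H.Adj (p y) y := ((h2 _).2 (Or.inl rfl)).symm
    have hq : H.Adj (q y) y := ((h2 _).2 (Or.inr rfl)).symm
    have ho : oth y (p y) = q y := by simp [oth]
    have h3 : s ⟨(q y, y), hq⟩ = !s ⟨(p y, y), hp⟩ := by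
      have := key2 y hy (p y) hp (by rw [ho]; exact hq)
      simpa only [ho] using this
    cases h4 : s ⟨(p y, y), hp⟩ with
    | true =>
      rw [h4] at h3
      refine ⟨p y, q y, h1, h2, ⟨hp, h4⟩, ⟨hq.symm, ?_⟩⟩
      rw [key1 _ _ hq, h3]
      rfl
    | false =>
      rw [h4] at h3
      refine ⟨q y, p y, h1.symm, fun w => (h2 w).trans or_comm, ⟨hq, h3⟩, ⟨hp.symm, ?_⟩⟩
      rw [key1 _ _ hp, h4]
      rfl

/-- a 2-regular graph is the graph of a permutation -/
theorem two_regular_perm {Y : Type*} [Finite Y] (H : SimpleGraph Y)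
    (h : ∀ y, ∃ p q, p ≠ q ∧ ∀ w, H.Adj y w ↔ w = p ∨ w = q) :
    ∃ σ : Equiv.Perm Y, (∀ y z, H.Adj y z ↔ z = σ y ∨ y = σ z) ∧ ∀ y, σ (σ y) ≠ y := by
  classical
  obtain ⟨s, hs, hs2⟩ := orient H Set.univ (fun y _ => h y)
  have hs3 : ∀ y, ∃ p q, p ≠ q ∧ (∀ w, H.Adj y w ↔ w = p ∨ w = q) ∧ s p y ∧ s y q :=
    fun y => hs2 y (Set.mem_univ y)
  choose p q h1 h2 h3 h4 using hs3
  have hq : ∀ y, H.Adj y (q y) := fun y => (h2 y _).2 (Or.inr rfl)
  have hp : ∀ y, H.Adj y (p y) := fun y => (h2 y _).2 (Or.inl rfl)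
  -- the predecessor of the successor
  have hpq : ∀ y, p (q y) = y := by
    intro y
    rcases (h2 (q y) y).1 (hq y).symm with h5 | h5
    · exact h5.symm
    · exfalso
      have h6 : s (q y) y := by
        have := h4 (q y)
        rwa [← h5] at this
      exact (hs _ _ (hq y)).1 (h4 y) h6
  have hqp : ∀ y, q (p y) = y := by
    intro y
    rcases (h2 (p y) y).1 (hp y).symm with h5 | h5
    · exfalso
      have h6 : s y (p y) := by
        have := h3 (p y)
        rwa [← h5] at this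
      exact (hs _ _ (hp y)).1 h6 (h3 y)
    · exact h5.symm
  refine ⟨⟨q, p, hpq, hqp⟩, ?_, ?_⟩
  · intro y z
    change H.Adj y z ↔ z = q y ∨ y = q z
    rw [h2]
    constructor
    · rintro (h5 | h5)
      · right
        rw [h5, hqp]
      · left
        exact h5
    · rintro (h5 | h5)
      · right
        exact h5
      · left
        rw [h5, hpq]
  · intro y
    change q (q y) ≠ y
    intro h5
    apply h1 (q y)
    rw [hpq, h5]

end Pool.Agent.JW
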