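import Mathlib

/-!
# Maximal 2-packings of cubic graphs

`X` is a 2-packing if the closed neighbourhoods of its members are pairwise disjoint.
-/

set_option autoImplicit false

namespace Pool.Agent.JW

variable {V : Type*}

/-- 2-packings: no two members adjacent, no vertex with two neighbours in `X` -/
structure IsPack (G : SimpleGraph V) (X : Set V) : Prop where
  ind : ∀ x ∈ X, ∀ x' ∈ X, ¬ G.Adj x x'
  one : ∀ v, ∀ x ∈ X, ∀ x' ∈ X, G.Adj x v → G.Adj x' v → x = x'

/-- the leaves of the stars -/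
def leaves (G : SimpleGraph V) (X : Set V) : Set V := {y | ∃ x ∈ X, G.Adj x y}

/-- the vertices which are in no star -/
def rest (G : SimpleGraph V) (X : Set V) : Set V := {t | t ∉ X ∧ ∀ x ∈ X, ¬ G.Adj x t}

/-- maximal 2-packings: every vertex in no star has a neighbour which is a leaf -/
structure IsMaxPack (G : SimpleGraph V) (X : Set V) : Prop extends IsPack G X where
  dom : ∀ t ∈ rest G X, ∃ y ∈ leaves G X, G.Adj t y

theorem mem_leaves {G : SimpleGraph V} {X : Set V} {y : V} :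
    y ∈ leaves G X ↔ ∃ x ∈ X, G.Adj x y := Iff.rfl

theorem mem_rest {G : SimpleGraph V} {X : Set V} {t : V} :
    t ∈ rest G X ↔ t ∉ X ∧ ∀ x ∈ X, ¬ G.Adj x t := Iff.rfl

/-- the definition with closed neighbourhoods -/
theorem isPack_iff {G : SimpleGraph V} {X : Set V} :
    IsPack G X ↔ ∀ x ∈ X, ∀ x' ∈ X, x ≠ x' →
      Disjoint (insert x (G.neighborSet x)) (insert x' (G.neighborSet x')) := by
  constructor
  · intro h x hx x' hx' hne
    rw [Set.disjoint_left]
    rintro v (rfl | hv) (rfl | hv')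
    · exact hne rfl
    · exact h.ind _ hx' _ hx hv'
    · exact h.ind _ hx _ hx' hv
    · exact hne (h.one v x hx x' hx' hv hv')
  · intro h
    refine ⟨fun x hx x' hx' hadj => ?_, fun v x hx x' hx' h1 h2 => ?_⟩
    · have h1 := h x hx x' hx' hadj.ne
      rw [Set.disjoint_left] at h1
      exact h1 (a := x') (Set.mem_insert_of_mem _ hadj) (Set.mem_insert _ _)
    · by_contra hne
      have h3 := h x hx x' hx' hne
      rw [Set.disjoint_left] at h3
      exact h3 (a := v) (Set.mem_insert_of_mem _ h1) (Set.mem_insert_of_mem _ h2)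

theorem isPack_empty (G : SimpleGraph V) : IsPack G ∅ :=
  ⟨fun _ h => h.elim, fun _ _ h => h.elim⟩

theorem IsPack.subset {G : SimpleGraph V} {X X' : Set V} (h : IsPack G X) (hs : X' ⊆ X) :
    IsPack G X' :=
  ⟨fun x hx x' hx' => h.ind x (hs hx) x' (hs hx'),
    fun v x hx x' hx' => h.one v x (hs hx) x' (hs hx')⟩

/-- a vertex all of whose neighbours are in no star can be added -/
theorem IsPack.add {G : SimpleGraph V} {X : Set V} (h : IsPack G X) {t : V}
    (ht : ∀ x ∈ X, ¬ G.Adj x t) (hn : ∀ y, G.Adj t y → ∀ x ∈ X, ¬ G.Adj x y) :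
    IsPack G (insert t X) := by
  refine ⟨?_, ?_⟩
  · rintro x (rfl | hx) x' (rfl | hx')
    · exact G.irrefl
    · exact fun h1 => ht x' hx' h1.symm
    · exact ht x hx
    · exact h.ind x hx x' hx'
  · rintro v x (rfl | hx) x' (rfl | hx') h1 h2
    · rfl
    · exact absurd h2 (hn v h1 x' hx')
    · exact absurd h1 (hn v h2 x hx)
    · exact h.one v x hx x' hx' h1 h2

/-- a packing which is maximal for inclusion is a maximal packing -/
theorem IsPack.isMaxPack {G : SimpleGraph V} {X : Set V} (h : IsPack G X)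
    (hm : ∀ t, t ∉ X → ¬ IsPack G (insert t X)) : IsMaxPack G X := by
  refine ⟨h, ?_⟩
  rintro t ⟨htX, ht⟩
  by_contra hcon
  push Not at hcon
  exact hm t htX (h.add ht fun y hy x hx hxy => hcon y ⟨x, hx, hxy⟩ hy)

theorem IsMaxPack.not_insert {G : SimpleGraph V} {X : Set V} (h : IsMaxPack G X) {t : V}
    (ht : t ∉ X) : ¬ IsPack G (insert t X) := by
  intro h'
  by_cases h1 : ∃ x ∈ X, G.Adj x t
  · obtain ⟨x, hx, hxt⟩ := h1
    exact h'.ind x (Set.mem_insert_of_mem _ hx) t (Set.mem_insert _ _) hxt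
  · push Not at h1
    obtain ⟨y, ⟨x, hx, hxy⟩, hty⟩ := h.dom t ⟨ht, h1⟩
    exact ht ((h'.one y x (Set.mem_insert_of_mem _ hx) t (Set.mem_insert _ _) hxy hty) ▸ hx)

/-- **Optimal packings.** For every weight `f` there is a packing with the maximum number of members
and, among those, with `f` maximum; it is maximal. -/
theorem exists_opt_pack [Finite V] (G : SimpleGraph V) (f : Set V → ℕ) :
    ∃ X : Set V, IsMaxPack G X ∧ (∀ X', IsPack G X' → X'.ncard ≤ X.ncard) ∧
      ∀ X', IsPack G X' → X'.ncard = X.ncard → f X' ≤ f X := by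
  classical
  have hfin : {X : Set V | IsPack G X}.Finite := Set.toFinite _
  obtain ⟨X1, hX1, hmax1⟩ := Set.exists_max_image {X : Set V | IsPack G X} Set.ncard hfin
    ⟨∅, isPack_empty G⟩
  obtain ⟨X, hX, hmax⟩ := Set.exists_max_image
    {X : Set V | IsPack G X ∧ X.ncard = X1.ncard} f (Set.toFinite _) ⟨X1, hX1, rfl⟩
  obtain ⟨hX, hXc⟩ := hX
  have hm : ∀ X', IsPack G X' → X'.ncard ≤ X.ncard := fun X' h => hXc ▸ hmax1 X' h
  refine ⟨X, hX.isMaxPack fun t ht h => ?_, hm, fun X' h h1 => hmax X' ⟨h, h1.trans hXc⟩⟩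
  have := hm _ h
  rw [Set.ncard_insert_of_notMem ht (Set.toFinite _)] at this
  omega

/-- a packing of maximum size -/
theorem exists_maximum_pack [Finite V] (G : SimpleGraph V) :
    ∃ X : Set V, IsMaxPack G X ∧ ∀ X', IsPack G X' → X'.ncard ≤ X.ncard := by
  obtain ⟨X, h1, h2, -⟩ := exists_opt_pack G fun _ => 0
  exact ⟨X, h1, h2⟩

/-- every packing is contained in a maximal one -/
theorem IsPack.exists_maxPack [Finite V] {G : SimpleGraph V} {X₀ : Set V} (h₀ : IsPack G X₀) :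
    ∃ X : Set V, X₀ ⊆ X ∧ IsMaxPack G X := by
  obtain ⟨X, ⟨hX, hX₀⟩, hmax⟩ := Set.exists_max_image {X : Set V | IsPack G X ∧ X₀ ⊆ X} Set.ncard
    (Set.toFinite _) ⟨X₀, h₀, subset_rfl⟩
  refine ⟨X, hX₀, hX.isMaxPack fun t ht h => ?_⟩
  have := hmax _ ⟨h, hX₀.trans (Set.subset_insert _ _)⟩
  rw [Set.ncard_insert_of_notMem ht (Set.toFinite _)] at this
  omega

theorem exists_maxPack [Finite V] (G : SimpleGraph V) : ∃ X : Set V, IsMaxPack G X := by
  obtain ⟨X, -, h⟩ := (isPack_empty G).exists_maxPack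
  exact ⟨X, h⟩

/-! ### Vertices of the three kinds -/

section

variable {G : SimpleGraph V} {X : Set V}

/-- every vertex is a centre, a leaf or a rest vertex -/
theorem mem_or (G : SimpleGraph V) (X : Set V) (v : V) : v ∈ X ∨ v ∈ leaves G X ∨ v ∈ rest G X := by
  by_cases h : v ∈ X
  · exact Or.inl h
  · by_cases h' : ∃ x ∈ X, G.Adj x v
    · exact Or.inr (Or.inl h')
    · push Not at h'
      exact Or.inr (Or.inr ⟨h, h'⟩)

theorem IsPack.leaf_notMem (h : IsPack G X) {y : V} (hy : y ∈ leaves G X) : y ∉ X := by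
  obtain ⟨x, hx, hxy⟩ := hy
  exact fun hyX => h.ind x hx y hyX hxy

theorem notMem_leaves_of_rest {t : V} (ht : t ∈ rest G X) : t ∉ leaves G X :=
  fun ⟨x, hx, hxt⟩ => ht.2 x hx hxt

theorem IsPack.nbr_notMem (h : IsPack G X) {x y : V} (hx : x ∈ X) (hxy : G.Adj x y) : y ∉ X :=
  fun hyX => h.ind x hx y hyX hxy

/-- the centre of a leaf -/
theorem IsPack.exists_centre (h : IsPack G X) :
    ∃ ctr : V → V, (∀ y ∈ leaves G X, ctr y ∈ X ∧ G.Adj (ctr y) y) ∧
      ∀ x ∈ X, ∀ y, G.Adj x y → ctr y = x := by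
  classical
  have h1 : ∀ y : V, ∃ x : V, y ∈ leaves G X → x ∈ X ∧ G.Adj x y := by
    intro y
    by_cases hy : y ∈ leaves G X
    · obtain ⟨x, hx⟩ := hy
      exact ⟨x, fun _ => hx⟩
    · exact ⟨y, fun h => absurd h hy⟩
  choose ctr hctr using h1
  refine ⟨ctr, hctr, fun x hx y hxy => ?_⟩
  obtain ⟨h2, h3⟩ := hctr y ⟨x, hx, hxy⟩
  exact h.one y _ h2 _ hx h3 hxy

end

/-! ### Cubic graphs: the three neighbours of a vertex -/

section cubic

variable [Fintype V] [DecidableEq V] {G : SimpleGraph V} [DecidableRel G.Adj]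

/-- the three neighbours of a vertex of a cubic graph -/
theorem cubic_nbrs (hG : G.IsRegularOfDegree 3) (v : V) :
    ∃ a b c : V, a ≠ b ∧ a ≠ c ∧ b ≠ c ∧ ∀ w, G.Adj v w ↔ w = a ∨ w = b ∨ w = c := by
  have h := hG v
  rw [← SimpleGraph.card_neighborFinset_eq_degree, Finset.card_eq_three] at h
  obtain ⟨a, b, c, hab, hac, hbc, h⟩ := h
  refine ⟨a, b, c, hab, hac, hbc, fun w => ?_⟩
  rw [← SimpleGraph.mem_neighborFinset, h]
  simp

/-- the three neighbours, one of them prescribed -/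
theorem cubic_nbrs_of (hG : G.IsRegularOfDegree 3) {v a : V} (ha : G.Adj v a) :
    ∃ b c : V, a ≠ b ∧ a ≠ c ∧ b ≠ c ∧ ∀ w, G.Adj v w ↔ w = a ∨ w = b ∨ w = c := by
  obtain ⟨a', b', c', h1, h2, h3, h⟩ := cubic_nbrs hG v
  rcases (h a).1 ha with rfl | rfl | rfl
  · exact ⟨b', c', h1, h2, h3, h⟩
  · refine ⟨a', c', h1.symm, h3, h2, fun w => ?_⟩
    rw [h w]
    tauto
  · refine ⟨a', b', h2.symm, h3.symm, h1, fun w => ?_⟩
    rw [h w]
    tauto

/-- the three neighbours, two of them prescribed -/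
theorem cubic_nbrs_of2 (hG : G.IsRegularOfDegree 3) {v a b : V} (hab : a ≠ b) (ha : G.Adj v a)
    (hb : G.Adj v b) : ∃ c : V, a ≠ c ∧ b ≠ c ∧ ∀ w, G.Adj v w ↔ w = a ∨ w = b ∨ w = c := by
  obtain ⟨b', c', h1, h2, h3, h⟩ := cubic_nbrs_of hG ha
  rcases (h b).1 hb with rfl | rfl | rfl
  · exact absurd rfl hab
  · exact ⟨c', h2, h3, h⟩
  · refine ⟨b', h1, h3.symm, fun w => ?_⟩
    rw [h w]
    tauto

variable {X : Set V}

/-- a leaf: its centre and its two neighbours outside `X` -/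
theorem IsPack.leaf_nbrs (hG : G.IsRegularOfDegree 3) (h : IsPack G X) {y : V}
    (hy : y ∈ leaves G X) :
    ∃ x a b : V, x ∈ X ∧ a ∉ X ∧ b ∉ X ∧ a ≠ b ∧ x ≠ a ∧ x ≠ b ∧
      ∀ w, G.Adj y w ↔ w = x ∨ w = a ∨ w = b := by
  obtain ⟨x, hx, hxy⟩ := hy
  obtain ⟨a, b, h1, h2, h3, h4⟩ := cubic_nbrs_of hG hxy.symm
  refine ⟨x, a, b, hx, fun ha => ?_, fun hb => ?_, h3, h1, h2, h4⟩
  · exact h1 (h.one y x hx a ha hxy ((h4 a).2 (by simp)).symm)
  · exact h2 (h.one y x hx b hb hxy ((h4 b).2 (by simp)).symm)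

/-- the neighbours of a leaf outside `X` -/
theorem IsPack.leaf_H (hG : G.IsRegularOfDegree 3) (h : IsPack G X) {y : V}
    (hy : y ∈ leaves G X) :
    ∃ a b : V, a ∉ X ∧ b ∉ X ∧ a ≠ b ∧ ∀ w, (G.Adj y w ∧ w ∉ X) ↔ w = a ∨ w = b := by
  obtain ⟨x, a, b, hx, ha, hb, hab, h1, h2, h3⟩ := h.leaf_nbrs hG hy
  refine ⟨a, b, ha, hb, hab, fun w => ?_⟩
  rw [h3 w]
  constructor
  · rintro ⟨rfl | rfl | rfl, hw⟩
    · exact absurd hx hw
    · exact Or.inl rfl
    · exact Or.inr rfl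
  · rintro (rfl | rfl)
    · exact ⟨by simp, ha⟩
    · exact ⟨by simp, hb⟩

/-- a leaf has two neighbours outside `X` -/
theorem IsPack.leaf_H_ncard (hG : G.IsRegularOfDegree 3) (h : IsPack G X) {y : V}
    (hy : y ∈ leaves G X) : {w | G.Adj y w ∧ w ∉ X}.ncard = 2 := by
  obtain ⟨a, b, -, -, hab, h1⟩ := h.leaf_H hG hy
  have : {w | G.Adj y w ∧ w ∉ X} = {a, b} := by
    ext w
    simp only [Set.mem_ofPred_eq, Set.mem_insert_iff, Set.mem_singleton_iff]
    exact h1 w
  rw [this, Set.ncard_pair hab]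

omit [Fintype V] [DecidableEq V] [DecidableRel G.Adj] in
/-- a leaf has one neighbour in `X` -/
theorem IsPack.leaf_X_ncard (h : IsPack G X) {y : V} (hy : y ∈ leaves G X) :
    {w | G.Adj y w ∧ w ∈ X}.ncard = 1 := by
  obtain ⟨x, hx, hxy⟩ := hy
  have : {w | G.Adj y w ∧ w ∈ X} = {x} := by
    ext w
    simp only [Set.mem_ofPred_eq, Set.mem_singleton_iff]
    constructor
    · rintro ⟨h1, h2⟩
      exact h.one y w h2 x hx h1.symm hxy
    · rintro rfl
      exact ⟨hxy.symm, hx⟩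
  rw [this, Set.ncard_singleton]

/-- a centre: its three neighbours are leaves -/
theorem IsPack.centre_nbrs (hG : G.IsRegularOfDegree 3) {x : V} (hx : x ∈ X) :
    ∃ a b c : V, a ∈ leaves G X ∧ b ∈ leaves G X ∧ c ∈ leaves G X ∧ a ≠ b ∧ a ≠ c ∧ b ≠ c ∧
      ∀ w, G.Adj x w ↔ w = a ∨ w = b ∨ w = c := by
  obtain ⟨a, b, c, h1, h2, h3, h4⟩ := cubic_nbrs hG x
  exact ⟨a, b, c, ⟨x, hx, (h4 a).2 (by simp)⟩, ⟨x, hx, (h4 b).2 (by simp)⟩,
    ⟨x, hx, (h4 c).2 (by simp)⟩, h1, h2, h3, h4⟩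

/-- the star of a centre has three leaves -/
theorem star_ncard (hG : G.IsRegularOfDegree 3) (x : V) : {y | G.Adj x y}.ncard = 3 := by
  obtain ⟨a, b, c, h1, h2, h3, h4⟩ := cubic_nbrs hG x
  have : {y | G.Adj x y} = {a, b, c} := by
    ext w
    simp only [Set.mem_ofPred_eq, Set.mem_insert_iff, Set.mem_singleton_iff]
    exact h4 w
  rw [this, Set.ncard_eq_toFinset_card']
  simp [h1, h2, h3]

omit [Fintype V] [DecidableEq V] [DecidableRel G.Adj] in
/-- the leaves with a given centre -/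
theorem fibre_eq {ctr : V → V}
    (hctr : ∀ x ∈ X, ∀ y, G.Adj x y → ctr y = x) {x : V} (hx : x ∈ X) :
    {y | y ∈ leaves G X ∧ ctr y = x} = {y | G.Adj x y} := by
  ext y
  simp only [Set.mem_ofPred_eq]
  constructor
  · rintro ⟨⟨x', hx', hx'y⟩, h2⟩
    rw [hctr x' hx' y hx'y] at h2
    exact h2 ▸ hx'y
  · intro hxy
    exact ⟨⟨x, hx, hxy⟩, hctr x hx y hxy⟩

theorem fibre_ncard (hG : G.IsRegularOfDegree 3) {ctr : V → V}
    (hctr : ∀ x ∈ X, ∀ y, G.Adj x y → ctr y = x) {x : V} (hx : x ∈ X) :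
    {y | y ∈ leaves G X ∧ ctr y = x}.ncard = 3 := by
  rw [fibre_eq hctr hx, star_ncard hG]

/-- a rest vertex has three neighbours outside `X` -/
theorem rest_H_ncard (hG : G.IsRegularOfDegree 3) {t : V} (ht : t ∈ rest G X) :
    {w | G.Adj t w ∧ w ∉ X}.ncard = 3 := by
  have : {w | G.Adj t w ∧ w ∉ X} = {w | G.Adj t w} := by
    ext w
    simp only [Set.mem_ofPred_eq, and_iff_left_iff_imp]
    exact fun h hw => ht.2 w hw h.symm
  rw [this, star_ncard hG]

omit [Fintype V] [DecidableEq V] [DecidableRel G.Adj] in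
/-- a neighbour of a rest vertex is not a centre -/
theorem rest_nbr_notMem {t w : V} (ht : t ∈ rest G X) (h : G.Adj t w) : w ∉ X :=
  fun hw => ht.2 w hw h.symm

/-- a rest vertex: one neighbour is a leaf, the two others are arbitrary -/
theorem IsMaxPack.rest_nbrs (hG : G.IsRegularOfDegree 3) (h : IsMaxPack G X) {t : V}
    (ht : t ∈ rest G X) :
    ∃ y a b : V, y ∈ leaves G X ∧ a ∉ X ∧ b ∉ X ∧ y ≠ a ∧ y ≠ b ∧ a ≠ b ∧
      ∀ w, G.Adj t w ↔ w = y ∨ w = a ∨ w = b := by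
  obtain ⟨y, hy, hty⟩ := h.dom t ht
  obtain ⟨a, b, h1, h2, h3, h4⟩ := cubic_nbrs_of hG hty
  exact ⟨y, a, b, hy, rest_nbr_notMem ht ((h4 a).2 (by simp)),
    rest_nbr_notMem ht ((h4 b).2 (by simp)), h1, h2, h3, h4⟩

/-- a rest vertex has at most two neighbours in the rest -/
theorem IsMaxPack.rest_rest_ncard (hG : G.IsRegularOfDegree 3) (h : IsMaxPack G X) {t : V}
    (ht : t ∈ rest G X) : {w | G.Adj t w ∧ w ∈ rest G X}.ncard ≤ 2 := by
  obtain ⟨y, a, b, hy, -, -, -, -, hab, h1⟩ := h.rest_nbrs hG ht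
  have : {w | G.Adj t w ∧ w ∈ rest G X} ⊆ {a, b} := by
    rintro w ⟨h2, h3⟩
    rcases (h1 w).1 h2 with rfl | rfl | rfl
    · exact absurd hy (notMem_leaves_of_rest h3)
    · simp
    · simp
  exact (Set.ncard_le_ncard this (Set.toFinite _)).trans (Set.ncard_pair hab).le

/-- there are three times as many leaves as centres -/
theorem IsPack.leaves_ncard (hG : G.IsRegularOfDegree 3) (h : IsPack G X) :
    (leaves G X).ncard = 3 * X.ncard := by
  classical
  obtain ⟨ctr, h1, h2⟩ := h.exists_centre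
  have hf : ∀ y ∈ (leaves G X).toFinset, ctr y ∈ X.toFinset := by
    intro y hy
    rw [Set.mem_toFinset] at hy ⊢
    exact (h1 y hy).1
  have h3 := Finset.card_eq_sum_card_fiberwise hf
  rw [Set.ncard_eq_toFinset_card', Set.ncard_eq_toFinset_card', h3, Finset.sum_const_nat (m := 3)]
  · ring
  · intro x hx
    rw [Set.mem_toFinset] at hx
    rw [← fibre_ncard hG h2 hx, Set.ncard_eq_toFinset_card']
    congr 1
    ext y
    simp

/-- the number of vertices -/
theorem IsPack.card (hG : G.IsRegularOfDegree 3) (h : IsPack G X) :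
    Fintype.card V = 4 * X.ncard + (rest G X).ncard := by
  classical
  have h1 : (Set.univ : Set V) = (X ∪ leaves G X) ∪ rest G X := by
    ext v
    have := mem_or G X v
    simp only [Set.mem_univ, Set.mem_union, true_iff]
    tauto
  have h2 : Disjoint X (leaves G X) := by
    rw [Set.disjoint_left]
    exact fun v hv hv' => h.leaf_notMem hv' hv
  have h3 : Disjoint (X ∪ leaves G X) (rest G X) := by
    rw [Set.disjoint_left]
    rintro v (hv | hv) hv'
    · exact hv'.1 hv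
    · exact notMem_leaves_of_rest hv' hv
  have h4 : (Set.univ : Set V).ncard = Fintype.card V := by
    rw [Set.ncard_univ, Nat.card_eq_fintype_card]
  rw [← h4, h1, Set.ncard_union_eq h3 (Set.toFinite _) (Set.toFinite _),
    Set.ncard_union_eq h2 (Set.toFinite _) (Set.toFinite _), h.leaves_ncard hG]
  ring

end cubic

end Pool.Agent.JW
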