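import Pool.Agent.JW.CutProblem

/-!
# Cutting a 2-regular graph into segments of weight at most 5
-/

set_option autoImplicit false

namespace Pool.Agent.JW

open Function

section seg

variable {Y : Type*} (σ : Equiv.Perm Y) (red cut : Y → Bool) (acc : Y → ℕ)

/-- the accumulated weight bounds the weight of the part of the segment before `y` -/
theorem acc_sum
    (hacc : ∀ y, (if cut y = true then 0 else acc y) + 1 + (if red (σ y) = true then 1 else 0) ≤
      acc (σ y)) (n : ℕ) : ∀ y, (∀ k < n, cut ((σ.symm^[k + 1]) y) = false) →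
    (n + 1) + ((Finset.range (n + 1)).filter fun i => red ((σ.symm^[i]) y) = true).card ≤ acc y := by
  induction n with
  | zero =>
    intro y _
    have h := hacc (σ.symm y)
    rw [Equiv.apply_symm_apply] at h
    have h2 : ((Finset.range (0 + 1)).filter fun i => red ((σ.symm^[i]) y) = true).card =
        (if red y = true then 1 else 0) := by
      rw [Finset.card_filter, zero_add, Finset.sum_range_one]
      rfl
    rw [h2]
    omega
  | succ n ih =>
    intro y hy
    have h := hacc (σ.symm y)
    rw [Equiv.apply_symm_apply] at h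
    have h0 := hy 0 (Nat.succ_pos n)
    simp only [zero_add, iterate_one] at h0
    rw [h0] at h
    have h1 := ih (σ.symm y) (fun k hk => by
      have := hy (k + 1) (Nat.succ_lt_succ hk)
      rwa [← iterate_succ_apply])
    have h2 : ((Finset.range (n + 1 + 1)).filter fun i => red ((σ.symm^[i]) y) = true).card =
        (if red y = true then 1 else 0) +
        ((Finset.range (n + 1)).filter fun i => red ((σ.symm^[i]) (σ.symm y)) = true).card := by
      rw [Finset.card_filter, Finset.card_filter, Finset.sum_range_succ', add_comm]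
      simp only [iterate_zero, id_eq, iterate_succ_apply]
      rfl
    rw [h2]
    simp only [Bool.false_eq_true, if_false] at h
    omega

theorem exists_cut (hacc : ∀ y, (if cut y = true then 0 else acc y) + 1 +
    (if red (σ y) = true then 1 else 0) ≤ acc (σ y)) :
    ∀ (n : ℕ) (y : Y), acc y ≤ n → ∃ j, cut ((σ.symm^[j + 1]) y) = true := by
  intro n
  induction n with
  | zero =>
    intro y hy
    have h := hacc (σ.symm y)
    rw [Equiv.apply_symm_apply] at h
    omega
  | succ n ih =>
    intro y hy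
    cases hc : cut (σ.symm y) with
    | true => exact ⟨0, by simpa using hc⟩
    | false =>
      have h := hacc (σ.symm y)
      rw [Equiv.apply_symm_apply, hc] at h
      simp only [Bool.false_eq_true, if_false] at h
      obtain ⟨j, hj⟩ := ih (σ.symm y) (by omega)
      exact ⟨j + 1, by rwa [iterate_succ_apply]⟩

/-- the segments -/
theorem exists_lab [Finite Y] (hacc : ∀ y, (if cut y = true then 0 else acc y) + 1 +
    (if red (σ y) = true then 1 else 0) ≤ acc (σ y)) (h5 : ∀ y, acc y ≤ 5) :
    ∃ (lab : Y → Y), (∀ y, cut y = false → lab (σ y) = lab y) ∧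
      ∀ a, ({u : Y | cut u = false ∧ lab u = a}).ncard + ({y : Y | red y = true ∧ lab y = a}).ncard
        ≤ 4 := by
  classical
  have hex : ∀ y, ∃ j, cut ((σ.symm^[j + 1]) y) = true := fun y => exists_cut σ red cut acc hacc _ y le_rfl
  let J : Y → ℕ := fun y => Nat.find (hex y)
  have hJ1 : ∀ y, cut ((σ.symm^[J y + 1]) y) = true := fun y => Nat.find_spec (hex y)
  have hJ2 : ∀ y k, k < J y → cut ((σ.symm^[k + 1]) y) = false := by
    intro y k hk
    have := Nat.find_min (hex y) hk
    simpa using this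
  let lab : Y → Y := fun y => (σ.symm^[J y]) y
  have hJs : ∀ y, cut y = false → J (σ y) = J y + 1 := by
    intro y hy
    rw [Nat.find_eq_iff]
    constructor
    · rw [iterate_succ_apply, Equiv.symm_apply_apply]
      exact hJ1 y
    · intro k hk
      rw [iterate_succ_apply, Equiv.symm_apply_apply]
      cases k with
      | zero => simp [hy]
      | succ k =>
        have := hJ2 y k (by omega)
        rw [this]
        simp
  have hlabs : ∀ y, cut y = false → lab (σ y) = lab y := by
    intro y hy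
    show (σ.symm^[J (σ y)]) (σ y) = (σ.symm^[J y]) y
    rw [hJs y hy, iterate_succ_apply, Equiv.symm_apply_apply]
  refine ⟨lab, hlabs, ?_⟩
  intro a
  rcases Set.eq_empty_or_nonempty {y : Y | lab y = a} with h0 | hne
  · have h1 : {u : Y | cut u = false ∧ lab u = a} = ∅ := by
      ext u
      simp only [Set.mem_setOf_eq, Set.mem_empty_iff_false, iff_false]
      rintro ⟨-, h⟩
      have : u ∈ {y : Y | lab y = a} := h
      rw [h0] at this
      exact this
    have h2 : {y : Y | red y = true ∧ lab y = a} = ∅ := by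
      ext u
      simp only [Set.mem_setOf_eq, Set.mem_empty_iff_false, iff_false]
      rintro ⟨-, h⟩
      have : u ∈ {y : Y | lab y = a} := h
      rw [h0] at this
      exact this
    rw [h1, h2]
    simp
  obtain ⟨z, hz, hmax⟩ := Set.Finite.exists_maximalFor J {y : Y | lab y = a} (Set.toFinite _) hne
  have hmax' : ∀ y, lab y = a → J y ≤ J z := by
    intro y hy
    by_contra h
    exact h (hmax (show y ∈ {y : Y | lab y = a} from hy) (le_of_lt (not_le.1 h)))
  set n := J z with hn
  have hcl : ∀ y, lab y = a → y = (σ.symm^[n - J y]) z := by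
    intro y hy
    have h1 : J y ≤ n := hmax' y hy
    have h2 : (σ.symm^[J y]) y = (σ.symm^[n]) z := by
      have e1 : lab y = lab z := hy.trans (Eq.symm hz)
      exact e1
    have h3 : (σ.symm^[n]) z = (σ.symm^[J y]) ((σ.symm^[n - J y]) z) := by
      rw [← iterate_add_apply, Nat.add_sub_cancel' h1]
    rw [h3] at h2
    exact (σ.symm.injective.iterate (J y)) h2
  have hsum := acc_sum σ red cut acc hacc n z (fun k hk => hJ2 z k hk)
  have h1 : ({u : Y | cut u = false ∧ lab u = a}).ncard ≤ n := by
    have hsub : {u : Y | cut u = false ∧ lab u = a} ⊆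
        ((Finset.range n).image fun i => (σ.symm^[i + 1]) z : Finset Y) := by
      rintro u ⟨hu1, hu2⟩
      have h2 : lab (σ u) = a := (hlabs u hu1).trans hu2
      have h3 := hmax' (σ u) h2
      rw [hJs u hu1] at h3
      have h4 := hcl u hu2
      simp only [Finset.coe_image, Set.mem_image, Finset.coe_range, Set.mem_Iio]
      refine ⟨n - J u - 1, by omega, ?_⟩
      rw [show n - J u - 1 + 1 = n - J u by omega]
      exact h4.symm
    refine (Set.ncard_le_ncard hsub (Set.toFinite _)).trans ?_
    rw [Set.ncard_coe_finset]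
    exact Finset.card_image_le.trans (by simp)
  have h2 : ({y : Y | red y = true ∧ lab y = a}).ncard ≤
      ((Finset.range (n + 1)).filter fun i => red ((σ.symm^[i]) z) = true).card := by
    have hsub : {y : Y | red y = true ∧ lab y = a} ⊆
        (((Finset.range (n + 1)).filter fun i => red ((σ.symm^[i]) z) = true).image
          fun i => (σ.symm^[i]) z : Finset Y) := by
      rintro u ⟨hu1, hu2⟩
      have h4 := hcl u hu2
      simp only [Finset.coe_image, Set.mem_image, Finset.coe_filter, Finset.mem_range,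
        Set.mem_setOf_eq]
      refine ⟨n - J u, ⟨by omega, ?_⟩, h4.symm⟩
      rw [← h4]
      exact hu1
    refine (Set.ncard_le_ncard hsub (Set.toFinite _)).trans ?_
    rw [Set.ncard_coe_finset]
    exact Finset.card_image_le
  have h5' := h5 z
  omega

end seg

section main

variable {V : Type*} [Fintype V]

/-- **Segments.** `X` is a perfect code, `σ` a permutation describing `G - X`, every star has exactly
one red leaf, and the cuts fulfil the weight certificate. -/
theorem segCut (G : SimpleGraph V) [DecidableRel G.Adj] (hreg : G.IsRegularOfDegree 3) (X : Set V)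
    (hind : ∀ x ∈ X, ∀ x' ∈ X, ¬ G.Adj x x')
    (hone : ∀ v, ∀ x ∈ X, ∀ x' ∈ X, G.Adj x v → G.Adj x' v → x = x')
    (hdom : ∀ v, v ∉ X → ∃ x ∈ X, G.Adj x v)
    (σ : Equiv.Perm {v : V // v ∉ X})
    (hσ : ∀ y z : {v : V // v ∉ X}, G.Adj y.1 z.1 ↔ z = σ y ∨ y = σ z)
    (red cut : {v : V // v ∉ X} → Bool) (acc : {v : V // v ∉ X} → ℕ)
    (hex : ∀ x ∈ X, ∃ y : {v : V // v ∉ X}, G.Adj x y.1 ∧ red y = true)
    (hun : ∀ x ∈ X, ∀ y z : {v : V // v ∉ X}, G.Adj x y.1 → red y = true → G.Adj x z.1 →
      red z = true → y = z)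
    (hc1 : ∀ y, cut y = true → red y = true ∨ red (σ y) = true)
    (hc2 : ∀ y, cut y = true → cut (σ y) = false)
    (hacc : ∀ y, (if cut y = true then 0 else acc y) + 1 + (if red (σ y) = true then 1 else 0) ≤
      acc (σ y)) (h5 : ∀ y, acc y ≤ 5) :
    ∃ c : Sym2 V → Bool, ∀ (b : Bool) (v : V), (compE G c b v).ncard ≤ 4 := by
  classical
  obtain ⟨lab, hlab1, hlab2⟩ := exists_lab σ red cut acc hacc h5
  let R : Set V := {v | ∃ h : v ∉ X, red ⟨v, h⟩ = true}
  let Eb : Set (Sym2 V) := {e | ∃ y : {v : V // v ∉ X}, cut y = true ∧ e = s(y.1, (σ y).1)}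
  let labR : V → Option {v : V // v ∉ X} := fun v => if h : v ∉ X then some (lab ⟨v, h⟩) else none
  let labB : V → Option {v : V // v ∉ X} := fun v =>
    if h : v ∉ X then (if cut ⟨v, h⟩ = true then some ⟨v, h⟩ else some (σ.symm ⟨v, h⟩)) else none
  have hlabR : ∀ (v : V) (h : v ∉ X), labR v = some (lab ⟨v, h⟩) := fun v h => by simp [labR, h]
  -- blue edges
  have hEb : ∀ y z : {v : V // v ∉ X}, s(y.1, z.1) ∈ Eb ↔
      (cut y = true ∧ z = σ y) ∨ (cut z = true ∧ y = σ z) := by
    intro y z
    constructor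
    · rintro ⟨u, hu, he⟩
      rw [Sym2.eq_iff] at he
      rcases he with ⟨h1, h2⟩ | ⟨h1, h2⟩
      · left
        have e1 : y = u := Subtype.ext h1
        subst e1
        exact ⟨hu, Subtype.ext h2⟩
      · right
        have e1 : z = u := Subtype.ext h2
        subst e1
        exact ⟨hu, Subtype.ext h1⟩
    · rintro (⟨h1, rfl⟩ | ⟨h1, rfl⟩)
      · exact ⟨y, h1, rfl⟩
      · exact ⟨z, h1, Sym2.eq_swap⟩
  -- at most one blue edge at every vertex
  have huniq : ∀ y z w : {v : V // v ∉ X}, s(y.1, z.1) ∈ Eb → s(y.1, w.1) ∈ Eb → w = z := by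
    intro y z w h1 h2
    rw [hEb] at h1 h2
    rcases h1 with ⟨h1, h1'⟩ | ⟨h1, h1'⟩
    · rcases h2 with ⟨h2, h2'⟩ | ⟨h2, h2'⟩
      · rw [h1', h2']
      · have h3 := hc2 w h2
        rw [← h2', h1] at h3
        exact absurd h3 (by simp)
    · rcases h2 with ⟨h2, h2'⟩ | ⟨h2, h2'⟩
      · have h3 := hc2 z h1
        rw [← h1', h2] at h3
        exact absurd h3 (by simp)
      · exact σ.injective (h2'.symm.trans h1')
  have hRmem : ∀ y : {v : V // v ∉ X}, y.1 ∈ R ↔ red y = true := by
    intro y
    constructor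
    · rintro ⟨_, h⟩
      exact h
    · intro h
      exact ⟨y.2, h⟩
  have hBB : ∀ y : {v : V // v ∉ X}, BB G X R y.1 ↔ red y = false := by
    intro y
    constructor
    · rintro ⟨h1, -⟩
      rw [hRmem] at h1
      simpa using h1
    · intro h
      refine ⟨?_, hdom y.1 y.2⟩
      rw [hRmem, h]
      simp
  have hS : CutSol G X R Eb labR labB := by
    refine ⟨hind, hone, ?_, ?_, ?_, ?_, ?_, ?_, ?_⟩
    · intro x hx
      obtain ⟨y, hy1, hy2⟩ := hex x hx
      exact ⟨y.1, hy1, y.2, hy2⟩
    · rintro x hx y z hxy ⟨hy1, hy2⟩ hxz ⟨hz1, hz2⟩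
      have := hun x hx ⟨y, hy1⟩ ⟨z, hz1⟩ hxy hy2 hxz hz2
      exact congrArg Subtype.val this
    · intro y z hyz hy hz he hB
      have h1 := (hEb ⟨y, hy⟩ ⟨z, hz⟩).1 he
      have h2 := (hBB ⟨y, hy⟩).1 hB
      refine ⟨?_, ?_, ?_⟩
      · rw [show z = (⟨z, hz⟩ : {v : V // v ∉ X}).1 from rfl, hBB]
        rcases h1 with ⟨h1, h1'⟩ | ⟨h1, h1'⟩
        · rcases hc1 _ h1 with h3 | h3
          · rw [h2] at h3
            exact absurd h3 (by simp)
          · rw [h1', h3]
            simp
        · rcases hc1 _ h1 with h3 | h3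
          · rw [h3]
            simp
          · rw [← h1', h2] at h3
            exact absurd h3 (by simp)
      · intro w hw1 hw2 hw3
        exact congrArg Subtype.val (huniq ⟨y, hy⟩ ⟨z, hz⟩ ⟨w, hw2⟩ he hw3)
      · intro w hw1 hw2 hw3
        have he' : s(z, y) ∈ Eb := by rwa [Sym2.eq_swap]
        exact congrArg Subtype.val (huniq ⟨z, hz⟩ ⟨y, hy⟩ ⟨w, hw2⟩ he' hw3)
    · intro y z hyz hy hz he
      rw [hlabR y hy, hlabR z hz]
      congr 1
      rcases (hσ ⟨y, hy⟩ ⟨z, hz⟩).1 hyz with h1 | h1
      · have h2 : cut ⟨y, hy⟩ = false := by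
          by_contra h3
          exact he ((hEb ⟨y, hy⟩ ⟨z, hz⟩).2 (Or.inl ⟨by simpa using h3, h1⟩))
        rw [h1, hlab1 _ h2]
      · have h2 : cut ⟨z, hz⟩ = false := by
          by_contra h3
          exact he ((hEb ⟨y, hy⟩ ⟨z, hz⟩).2 (Or.inr ⟨by simpa using h3, h1⟩))
        rw [h1, hlab1 _ h2]
    · intro a
      rcases a with - | a
      · have h1 : {e : Sym2 V | e ∈ G.edgeSet ∧ (∀ v ∈ e, v ∉ X ∧ labR v = none) ∧ e ∉ Eb} = ∅ := by
          ext e
          simp only [Set.mem_setOf_eq, Set.mem_empty_iff_false, iff_false]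
          rintro ⟨-, h2, -⟩
          induction e using Sym2.ind with
          | _ x y =>
            obtain ⟨h3, h4⟩ := h2 x (Sym2.mem_mk_left x y)
            rw [hlabR x h3] at h4
            exact absurd h4 (by simp)
        have h2 : {y : V | y ∈ R ∧ (∃ x ∈ X, G.Adj x y) ∧ labR y = none} = ∅ := by
          ext y
          simp only [Set.mem_setOf_eq, Set.mem_empty_iff_false, iff_false]
          rintro ⟨⟨h3, -⟩, -, h4⟩
          rw [hlabR y h3] at h4
          exact absurd h4 (by simp)
        rw [h1, h2]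
        simp
      · refine le_trans (add_le_add ?_ ?_) (hlab2 a)
        · have hsub : {e : Sym2 V | e ∈ G.edgeSet ∧ (∀ v ∈ e, v ∉ X ∧ labR v = some a) ∧ e ∉ Eb} ⊆
              (fun u : {v : V // v ∉ X} => s(u.1, (σ u).1)) '' {u | cut u = false ∧ lab u = a} := by
            rintro e ⟨h1, h2, h3⟩
            induction e using Sym2.ind with
            | _ y z =>
              obtain ⟨hy, hy'⟩ := h2 y (Sym2.mem_mk_left y z)
              obtain ⟨hz, hz'⟩ := h2 z (Sym2.mem_mk_right y z)
              rw [hlabR y hy, Option.some_inj] at hy'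
              rw [hlabR z hz, Option.some_inj] at hz'
              rcases (hσ ⟨y, hy⟩ ⟨z, hz⟩).1 h1 with h4 | h4
              · refine ⟨⟨y, hy⟩, ⟨?_, hy'⟩, ?_⟩
                · by_contra h5
                  exact h3 ((hEb ⟨y, hy⟩ ⟨z, hz⟩).2 (Or.inl ⟨by simpa using h5, h4⟩))
                · simp only [← h4]
              · refine ⟨⟨z, hz⟩, ⟨?_, hz'⟩, ?_⟩
                · by_contra h5
                  exact h3 ((hEb ⟨y, hy⟩ ⟨z, hz⟩).2 (Or.inr ⟨by simpa using h5, h4⟩))
                · simp only [← h4]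
                  exact Sym2.eq_swap
          exact (Set.ncard_le_ncard hsub (Set.toFinite _)).trans (Set.ncard_image_le (Set.toFinite _))
        · have hsub : {y : V | y ∈ R ∧ (∃ x ∈ X, G.Adj x y) ∧ labR y = some a} ⊆
              Subtype.val '' {y : {v : V // v ∉ X} | red y = true ∧ lab y = a} := by
            rintro y ⟨⟨hy, hy1⟩, -, hy2⟩
            rw [hlabR y hy, Option.some_inj] at hy2
            exact ⟨⟨y, hy⟩, ⟨hy1, hy2⟩, rfl⟩
          exact (Set.ncard_le_ncard hsub (Set.toFinite _)).trans (Set.ncard_image_le (Set.toFinite _))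
    · intro y z hyz hy hz he _ _
      have hb : ∀ u : {v : V // v ∉ X}, cut u = true → labB u.1 = some u ∧ labB (σ u).1 = some u := by
        intro u hu
        have h2 := hc2 u hu
        constructor
        · have : labB u.1 = if cut ⟨u.1, u.2⟩ = true then some ⟨u.1, u.2⟩ else
              some (σ.symm ⟨u.1, u.2⟩) := by simp [labB, u.2]
          rw [this, if_pos hu]
        · have : labB (σ u).1 = if cut ⟨(σ u).1, (σ u).2⟩ = true then some ⟨(σ u).1, (σ u).2⟩ else
              some (σ.symm ⟨(σ u).1, (σ u).2⟩) := by simp [labB, (σ u).2]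
          rw [this, if_neg (by simp [h2])]
          simp
      rcases (hEb ⟨y, hy⟩ ⟨z, hz⟩).1 he with ⟨h1, h2⟩ | ⟨h1, h2⟩
      · obtain ⟨h3, h4⟩ := hb _ h1
        rw [← h2] at h4
        exact h3.trans h4.symm
      · obtain ⟨h3, h4⟩ := hb _ h1
        rw [← h2] at h4
        exact h4.trans h3.symm
    · intro a
      have hsub : {e : Sym2 V | e ∈ G.edgeSet ∧ (∀ v ∈ e, v ∉ X ∧ ¬ BB G X R v ∧ labB v = a) ∧
          e ∈ Eb} ⊆ {e | ∃ u : {v : V // v ∉ X}, a = some u ∧ e = s(u.1, (σ u).1)} := by
        rintro e ⟨h1, h2, u, hu, rfl⟩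
        obtain ⟨h3, -, h4⟩ := h2 u.1 (Sym2.mem_mk_left _ _)
        refine ⟨u, ?_, rfl⟩
        have : labB u.1 = if cut ⟨u.1, u.2⟩ = true then some ⟨u.1, u.2⟩ else
              some (σ.symm ⟨u.1, u.2⟩) := by simp [labB, u.2]
        rw [this, if_pos hu] at h4
        exact h4.symm
      refine (Set.ncard_le_ncard hsub (Set.toFinite _)).trans ?_
      refine le_trans ((Set.ncard_le_one_iff (Set.toFinite _)).2 ?_) (by norm_num : 1 ≤ 4)
      rintro e e' ⟨u, hu, rfl⟩ ⟨u', hu', rfl⟩
      rw [hu, Option.some_inj] at hu'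
      rw [hu']
  exact ⟨cutCol X R Eb, fun b v => hS.main hreg b v⟩

end main

end Pool.Agent.JW
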