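import Pool.Agent.JW.Rule
import Pool.Agent.JW.SegCut
import Pool.Agent.JW.Orient
import Pool.Agent.JW.Packing
import Pool.Agent.JW.Equi

/-!
# Cubic graphs with a perfect code
-/

set_option autoImplicit false

namespace Pool.Agent.JW

open Function

/-- the fibres of a map are laminar -/
theorem laminar_fibres {E ι : Type*} [Fintype E] [DecidableEq E] [DecidableEq ι] (f : E → ι) :
    Laminar (Finset.univ.image fun y : E => Finset.univ.filter fun z => f z = f y) := by
  intro A hA B hB
  simp only [Finset.mem_image, Finset.mem_univ, true_and] at hA hB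
  obtain ⟨y, rfl⟩ := hA
  obtain ⟨z, rfl⟩ := hB
  by_cases h : f y = f z
  · left
    rw [h]
  · right; right
    rw [Finset.disjoint_left]
    intro w hw hw'
    simp only [Finset.mem_filter, Finset.mem_univ, true_and] at hw hw'
    exact h (hw.symm.trans hw')

/-- the blocks and the pairs of the big blocks -/
theorem laminar_two {E ι κ : Type*} [Fintype E] [DecidableEq E] [DecidableEq ι] [DecidableEq κ]
    (f : E → ι) (g : E → κ) (hfg : ∀ y z, g y = g z → f y = f z) :
    Laminar ((Finset.univ.image fun y : E => Finset.univ.filter fun z => f z = f y) ∪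
      (Finset.univ.image fun y : E => Finset.univ.filter fun z => g z = g y)) := by
  intro A hA B hB
  simp only [Finset.mem_union, Finset.mem_image, Finset.mem_univ, true_and] at hA hB
  rcases hA with ⟨y, rfl⟩ | ⟨y, rfl⟩ <;> rcases hB with ⟨z, rfl⟩ | ⟨z, rfl⟩
  · by_cases h : f y = f z
    · left
      rw [h]
    · right; right
      rw [Finset.disjoint_left]
      intro w hw hw'
      simp only [Finset.mem_filter, Finset.mem_univ, true_and] at hw hw'
      exact h (hw.symm.trans hw')
  · by_cases h : f y = f z
    · right; left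
      intro w hw
      simp only [Finset.mem_filter, Finset.mem_univ, true_and] at hw ⊢
      rw [hfg _ _ hw, h]
    · right; right
      rw [Finset.disjoint_left]
      intro w hw hw'
      simp only [Finset.mem_filter, Finset.mem_univ, true_and] at hw hw'
      exact h (hw.symm.trans (hfg _ _ hw'))
  · by_cases h : f y = f z
    · left
      intro w hw
      simp only [Finset.mem_filter, Finset.mem_univ, true_and] at hw ⊢
      rw [hfg _ _ hw, h]
    · right; right
      rw [Finset.disjoint_left]
      intro w hw hw'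
      simp only [Finset.mem_filter, Finset.mem_univ, true_and] at hw hw'
      exact h ((hfg _ _ hw).symm.trans hw')
  · by_cases h : g y = g z
    · left
      rw [h]
    · right; right
      rw [Finset.disjoint_left]
      intro w hw hw'
      simp only [Finset.mem_filter, Finset.mem_univ, true_and] at hw hw'
      exact h (hw.symm.trans hw')

section blocks

variable {Y : Type*} [Fintype Y] [DecidableEq Y] {σ : Equiv.Perm Y} (B : Blk σ)

/-- the half of the block -/
def Blk.half (B : Blk σ) (y : Y) : Bool := B.big y && decide (2 ≤ B.o y)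

omit [Fintype Y] [DecidableEq Y] in
theorem Blk.o_it (B : Blk σ) (y : Y) (j : ℕ) (hj : j < B.sz y) :
    B.o ((σ^[j]) (B.b y)) = j ∧ B.b ((σ^[j]) (B.b y)) = B.b y ∧
      B.big ((σ^[j]) (B.b y)) = B.big y := by
  induction j with
  | zero => exact ⟨B.o_b y, B.b_b y, B.big_b y⟩
  | succ j ih =>
    obtain ⟨h1, h2, h3⟩ := ih (by omega)
    have h4 : B.sz ((σ^[j]) (B.b y)) = B.sz y := by
      rw [B.sz_def, B.sz_def, h3]
    have h5 : B.o ((σ^[j]) (B.b y)) + 1 < B.sz ((σ^[j]) (B.b y)) := by
      rw [h1, h4]; exact hj
    rw [iterate_succ_apply']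
    exact ⟨by rw [B.step_o _ h5, h1], by rw [B.step_b _ h5, h2], by rw [B.step_big _ h5, h3]⟩

theorem Blk.block_card (B : Blk σ) (p : Y → Prop) [DecidablePred p] (y : Y) (q : ℕ → Prop)
    [DecidablePred q] :
    ((Finset.univ.filter fun z => B.b z = B.b y ∧ q (B.o z)).filter p).card =
      ((Finset.range (B.sz y)).filter fun j => q j ∧ p ((σ^[j]) (B.b y))).card := by
  symm
  refine Finset.card_bij (fun j _ => (σ^[j]) (B.b y)) ?_ ?_ ?_
  · intro j hj
    rw [Finset.mem_filter, Finset.mem_range] at hj
    obtain ⟨h1, h2, h3⟩ := B.o_it y j hj.1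
    simp only [Finset.mem_filter, Finset.mem_univ, true_and]
    exact ⟨⟨h2, by rw [h1]; exact hj.2.1⟩, hj.2.2⟩
  · intro j hj k hk h
    rw [Finset.mem_filter, Finset.mem_range] at hj hk
    rw [← (B.o_it y j hj.1).1, ← (B.o_it y k hk.1).1, h]
  · intro z hz
    simp only [Finset.mem_filter, Finset.mem_univ, true_and] at hz
    obtain ⟨⟨h1, h2⟩, h3⟩ := hz
    have h4 := B.it z
    rw [h1] at h4
    have h5 : B.big z = B.big y := by rw [← B.big_b z, h1, B.big_b y]
    refine ⟨B.o z, ?_, h4⟩
    rw [Finset.mem_filter, Finset.mem_range]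
    refine ⟨?_, h2, by rw [h4]; exact h3⟩
    have h6 := B.o_lt z
    rw [B.sz_def, h5, ← B.sz_def] at h6
    exact h6

theorem Blk.count (B : Blk σ) (red : Y → Bool) (y : Y) (q : ℕ → Prop) [DecidablePred q] :
    ((Finset.univ.filter fun z => B.b z = B.b y ∧ q (B.o z)).filter fun z => red z = true).card =
      ∑ j ∈ Finset.range (B.sz y), if q j ∧ B.r red j y = true then 1 else 0 := by
  rw [B.block_card (fun z => red z = true) y q, Finset.card_filter]
  rfl

theorem Blk.card (B : Blk σ) (y : Y) (q : ℕ → Prop) [DecidablePred q] :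
    (Finset.univ.filter fun z => B.b z = B.b y ∧ q (B.o z)).card =
      ∑ j ∈ Finset.range (B.sz y), if q j then 1 else 0 := by
  have h := B.count (fun _ => true) y q
  rw [Finset.filter_true_of_mem (by intros; rfl)] at h
  rw [h]
  refine Finset.sum_congr rfl fun j _ => ?_
  simp only [Blk.r, and_true]

end blocks

/-- counts of a balanced 3-colouring -/
theorem bal_sum {E : Type*} [DecidableEq E] (S : Finset E) (col : E → Fin 3) :
    S.card = (S.filter fun e => col e = 0).card + (S.filter fun e => col e = 1).card +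
      (S.filter fun e => col e = 2).card := by
  have h := Finset.card_eq_sum_card_fiberwise (s := S) (t := (Finset.univ : Finset (Fin 3)))
    (f := col) (fun x _ => by simp)
  rw [h, Fin.sum_univ_three]

/-- **Selection.** One red leaf in every star, admissible blocks. -/
theorem exists_red {Y ι : Type*} [Fintype Y] [DecidableEq Y] [DecidableEq ι]
    {σ : Equiv.Perm Y} (B : Blk σ) (ctr : Y → ι)
    (h3 : ∀ y, (Finset.univ.filter fun z => ctr z = ctr y).card = 3) :
    ∃ red : Y → Bool, B.Ok red ∧
      ∀ y, (Finset.univ.filter fun z => ctr z = ctr y ∧ red z = true).card = 1 := by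
  classical
  let g : Y → Y × Bool := fun y => (B.b y, B.half y)
  obtain ⟨col, hcol⟩ := equi _ _ (laminar_fibres ctr)
    (laminar_two B.b g (fun y z h => congrArg Prod.fst h)) 3 (by norm_num)
  let red : Y → Bool := fun y => decide (col y = 0)
  have hred : ∀ y, red y = true ↔ col y = 0 := fun y => by simp only [red, decide_eq_true_eq]
  have hfil : ∀ S : Finset Y, (S.filter fun e => red e = true) = S.filter fun e => col e = 0 := by
    intro S
    ext e
    simp only [Finset.mem_filter, hred]
  -- the balanced sets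
  have hbal : ∀ S : Finset Y, (∀ c c' : Fin 3, (S.filter fun e => col e = c).card ≤
      (S.filter fun e => col e = c').card + 1) →
      S.card ≤ 3 * (S.filter fun e => red e = true).card + 2 ∧
      3 * (S.filter fun e => red e = true).card ≤ S.card + 2 := by
    intro S hS
    rw [hfil]
    have h0 := bal_sum S col
    have h1 := hS 0 1
    have h2 := hS 0 2
    have h3 := hS 1 0
    have h4 := hS 2 0
    omega
  have hctr : ∀ y, (Finset.univ.filter fun z => ctr z = ctr y ∧ red z = true).card = 1 := by
    intro y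
    have h1 := hbal (Finset.univ.filter fun z => ctr z = ctr y) (hcol _ (Or.inl (by
      simp only [Finset.mem_image, Finset.mem_univ, true_and]
      exact ⟨y, rfl⟩)))
    rw [h3, Finset.filter_filter] at h1
    omega
  have hblk : ∀ y, B.sz y ≤ 3 * (∑ j ∈ Finset.range (B.sz y), if B.r red j y = true then 1 else 0) +
      2 ∧ 3 * (∑ j ∈ Finset.range (B.sz y), if B.r red j y = true then 1 else 0) ≤ B.sz y + 2 := by
    intro y
    have h1 := hbal (Finset.univ.filter fun z => B.b z = B.b y) (hcol _ (Or.inr (by
      simp only [Finset.mem_union, Finset.mem_image, Finset.mem_univ, true_and]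
      exact Or.inl ⟨y, rfl⟩)))
    have h2 := B.count red y (fun _ => True)
    have h4 := B.card y (fun _ => True)
    simp only [and_true, true_and, if_true, Finset.sum_const, Finset.card_range, smul_eq_mul,
      mul_one] at h2 h4
    rw [h2, h4] at h1
    exact h1
  refine ⟨red, ⟨?_, ?_⟩, hctr⟩
  · intro y hy
    have h1 := hblk y
    have h2 : B.sz y = 3 := by rw [B.sz_def, hy]; simp
    rw [h2] at h1
    simp only [Finset.sum_range_succ, Finset.sum_range_zero, zero_add] at h1
    cases hr0 : B.r red 0 y <;> cases hr1 : B.r red 1 y <;> cases hr2 : B.r red 2 y <;>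
      simp only [hr0, hr1, hr2, if_true, if_false, Bool.false_eq_true] at h1 <;> first | rfl | omega
  · intro y hy
    have h1 := hblk y
    have h2 : B.sz y = 4 := by rw [B.sz_def, hy]; simp
    -- the two halves
    have hh : ∀ k, k < 4 → (∀ j, (j < 2 ↔ k < 2) → True) →
        3 * (∑ j ∈ Finset.range 4, if (j < 2 ↔ k < 2) ∧ B.r red j y = true then 1 else 0) ≤
        (∑ j ∈ Finset.range 4, if (j < 2 ↔ k < 2) then 1 else 0) + 2 := by
      intro k hk _
      obtain ⟨e1, e2, e3⟩ := B.o_it y k (by rw [h2]; exact hk)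
      have hset : (Finset.univ.filter fun z => g z = g ((σ^[k]) (B.b y))) =
          Finset.univ.filter fun z => B.b z = B.b y ∧ (B.o z < 2 ↔ k < 2) := by
        ext z
        simp only [Finset.mem_filter, Finset.mem_univ, true_and, g, Prod.mk.injEq, Blk.half, e1,
          e2, e3, hy, Bool.true_and]
        constructor
        · rintro ⟨f1, f2⟩
          have f3 : B.big z = true := by rw [← B.big_b z, f1, B.big_b y]; exact hy
          rw [f3, Bool.true_and] at f2
          refine ⟨f1, ?_⟩
          have f4 := decide_eq_decide.1 f2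
          omega
        · rintro ⟨f1, f2⟩
          have f3 : B.big z = true := by rw [← B.big_b z, f1, B.big_b y]; exact hy
          refine ⟨f1, ?_⟩
          rw [f3, Bool.true_and]
          apply decide_eq_decide.2
          omega
      have h5 := hbal _ (hcol _ (Or.inr (by
        simp only [Finset.mem_union, Finset.mem_image, Finset.mem_univ, true_and]
        exact Or.inr ⟨(σ^[k]) (B.b y), rfl⟩)))
      rw [hset, B.count red y (fun j => (j < 2 ↔ k < 2)), B.card y (fun j => (j < 2 ↔ k < 2)),
        h2] at h5
      exact h5.2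
    have h3 := hh 0 (by norm_num) (fun _ _ => trivial)
    have h4 := hh 2 (by norm_num) (fun _ _ => trivial)
    rw [h2] at h1
    simp only [Finset.sum_range_succ, Finset.sum_range_zero, zero_add] at h1 h3 h4
    norm_num at h3 h4
    cases hr0 : B.r red 0 y <;> cases hr1 : B.r red 1 y <;> cases hr2 : B.r red 2 y <;>
      cases hr3 : B.r red 3 y <;>
      simp only [hr0, hr1, hr2, hr3, if_true, if_false, Bool.false_eq_true] at h1 h3 h4 <;>
      first | rfl | omega


/-- the component of a 2-regular graph given by a permutation -/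
theorem comp_ncard {Y : Type*} [Finite Y] (H : SimpleGraph Y) (σ : Equiv.Perm Y)
    (hσ : ∀ y z, H.Adj y z ↔ z = σ y ∨ y = σ z) (y : Y) (n : ℕ) (hn : 0 < n)
    (h : (σ^[n]) y = y) (hmin : ∀ m, 0 < m → (σ^[m]) y = y → n ≤ m) :
    (H.connectedComponentMk y).supp.ncard = n := by
  have hnm : n = minimalPeriod σ y := by
    apply le_antisymm
    · apply hmin
      · exact IsPeriodicPt.minimalPeriod_pos hn h
      · exact iterate_minimalPeriod
    · exact IsPeriodicPt.minimalPeriod_le hn h
  have hset : (H.connectedComponentMk y).supp = (fun i => (σ^[i]) y) '' (Set.Iio n) := by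
    ext z
    rw [SimpleGraph.ConnectedComponent.mem_supp_iff, SimpleGraph.ConnectedComponent.eq]
    constructor
    · intro hz
      have h1 : ∀ u v, H.Reachable u v → (∃ i, u = (σ^[i]) y) → ∃ i, v = (σ^[i]) y := by
        intro u v huv
        obtain ⟨w⟩ := huv
        induction w with
        | nil => exact id
        | cons hadj w ih =>
          intro hi
          apply ih
          obtain ⟨i, hi⟩ := hi
          rcases (hσ _ _).1 hadj with h2 | h2
          · exact ⟨i + 1, by rw [iterate_succ_apply', ← hi, h2]⟩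
          · rcases Nat.eq_zero_or_pos i with h3 | h3
            · refine ⟨n - 1, σ.injective ?_⟩
              have h4 : σ ((σ^[n - 1]) y) = (σ^[n]) y := by
                have h5 := iterate_succ_apply' (⇑σ) (n - 1) y
                rw [Nat.succ_eq_add_one, Nat.sub_add_cancel hn] at h5
                exact h5.symm
              rw [h4, h, ← h2, hi, h3]
              rfl
            · refine ⟨i - 1, σ.injective ?_⟩
              have h4 : σ ((σ^[i - 1]) y) = (σ^[i]) y := by
                have h5 := iterate_succ_apply' (⇑σ) (i - 1) y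
                rw [Nat.succ_eq_add_one, Nat.sub_add_cancel h3] at h5
                exact h5.symm
              rw [h4, ← h2, hi]
      obtain ⟨i, hi⟩ := h1 y z hz.symm ⟨0, rfl⟩
      refine ⟨i % n, Nat.mod_lt _ hn, ?_⟩
      show (σ^[i % n]) y = z
      rw [hnm, iterate_mod_minimalPeriod_eq, hi]
    · rintro ⟨i, -, rfl⟩
      show H.Reachable ((σ^[i]) y) y
      induction i with
      | zero => exact SimpleGraph.Reachable.refl _
      | succ i ih =>
        refine SimpleGraph.Reachable.trans (SimpleGraph.Adj.reachable ?_) ih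
        rw [iterate_succ_apply']
        exact (hσ _ _).2 (Or.inr rfl)
  rw [hset, Set.InjOn.ncard_image]
  · rw [Set.ncard_eq_toFinset_card']
    simp
  · rw [hnm]
    exact iterate_injOn_Iio_minimalPeriod

/-- **Theorem (perfect codes).** Let `X` be a perfect code of the cubic graph `G`, and suppose that no
component of `G - X` (a cycle) has length congruent to `2` modulo `3`. Then `G` has a 2-edge-colouring
with all monochromatic components of size at most four. -/
theorem perfectCode {V : Type*} [Fintype V] [DecidableEq V] (G : SimpleGraph V)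
    [DecidableRel G.Adj] (hreg : G.IsRegularOfDegree 3) (X : Set V)
    (hX : ∀ v, ∃! x, x ∈ X ∧ (x = v ∨ G.Adj x v))
    (hC : ∀ C : (G.induce Xᶜ).ConnectedComponent, C.supp.ncard % 3 ≠ 2) :
    ∃ c : Sym2 V → Bool, ∀ (b : Bool) (v : V), (compE G c b v).ncard ≤ 4 := by
  classical
  have hind : ∀ x ∈ X, ∀ x' ∈ X, ¬ G.Adj x x' := by
    intro x hx x' hx' h
    have := (hX x').unique ⟨hx, Or.inr h⟩ ⟨hx', Or.inl rfl⟩
    exact h.ne this
  have hone : ∀ v, ∀ x ∈ X, ∀ x' ∈ X, G.Adj x v → G.Adj x' v → x = x' := by
    intro v x hx x' hx' h h'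
    exact (hX v).unique ⟨hx, Or.inr h⟩ ⟨hx', Or.inr h'⟩
  have hdom : ∀ v, v ∉ X → ∃ x ∈ X, G.Adj x v := by
    intro v hv
    obtain ⟨x, ⟨hx, h | h⟩, -⟩ := hX v
    · exact absurd (h ▸ hx) hv
    · exact ⟨x, hx, h⟩
  have hpack : IsPack G X := ⟨hind, hone⟩
  let Y := {v : V // v ∉ X}
  let H : SimpleGraph Y := G.induce Xᶜ
  have hH : ∀ y z : Y, H.Adj y z ↔ G.Adj y.1 z.1 := fun y z => Iff.rfl
  obtain ⟨σ, hσ, hσ2⟩ := two_regular_perm H (by
    intro y
    obtain ⟨x, hx, hxy⟩ := hdom y.1 y.2
    obtain ⟨a, b, ha, hb, hab, h⟩ := hpack.leaf_H hreg (show y.1 ∈ leaves G X from ⟨x, hx, hxy⟩)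
    refine ⟨⟨a, ha⟩, ⟨b, hb⟩, fun h1 => hab (congrArg Subtype.val h1), fun w => ?_⟩
    rw [hH]
    have h1 := h w.1
    constructor
    · intro h2
      rcases h1.1 ⟨h2, w.2⟩ with h3 | h3
      · exact Or.inl (Subtype.ext h3)
      · exact Or.inr (Subtype.ext h3)
    · rintro (h3 | h3)
      · exact (h1.2 (Or.inl (congrArg Subtype.val h3))).1
      · exact (h1.2 (Or.inr (congrArg Subtype.val h3))).1)
  obtain ⟨B⟩ := exists_blk σ (by
    intro y n hn h
    by_contra h3
    have h4 : n = 1 ∨ n = 2 := by omega
    rcases h4 with rfl | rfl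
    · have h5 : H.Adj y (σ y) := (hσ _ _).2 (Or.inl rfl)
      exact h5.ne (Eq.symm h)
    · exact hσ2 y h) (by
    intro y n hn h hmin
    have h1 := comp_ncard H σ hσ y n hn h hmin
    have h2 := hC (H.connectedComponentMk y)
    rwa [h1] at h2)
  have hctr : ∀ y : Y, ∃ x, x ∈ X ∧ G.Adj x y.1 := fun y => hdom y.1 y.2
  choose ctr hctr1 hctr2 using hctr
  have hctr3 : ∀ (x : V) (_ : x ∈ X) (y : Y), G.Adj x y.1 → ctr y = x := fun x hx y h =>
    hone y.1 _ (hctr1 y) x hx (hctr2 y) h
  obtain ⟨red, hok, hred⟩ := exists_red B ctr (by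
    intro y
    have h1 : (Finset.univ.filter fun z => ctr z = ctr y).map (Embedding.subtype _) =
        G.neighborFinset (ctr y) := by
      ext w
      simp only [Finset.mem_map, Finset.mem_filter, Finset.mem_univ, true_and,
        Embedding.subtype_apply, SimpleGraph.mem_neighborFinset]
      constructor
      · rintro ⟨z, hz, rfl⟩
        rw [← hz]
        exact hctr2 z
      · intro hw
        have hwX : w ∉ X := fun h => hind _ (hctr1 y) _ h hw
        exact ⟨⟨w, hwX⟩, hctr3 _ (hctr1 y) _ hw, rfl⟩
    have h2 := congrArg Finset.card h1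
    rw [Finset.card_map, SimpleGraph.card_neighborFinset_eq_degree] at h2
    rw [h2]
    exact hreg _)
  obtain ⟨cut, acc, hc1, hc2, hacc, h5⟩ := B.rule red hok
  refine segCut G hreg X hind hone hdom σ (fun y z => (hH y z).symm.trans (hσ y z)) red cut acc ?_ ?_
    hc1 hc2 hacc h5
  · intro x hx
    obtain ⟨a, b, c, -, -, -, h⟩ := cubic_nbrs hreg x
    have ha : G.Adj x a := (h a).2 (Or.inl rfl)
    have haX : a ∉ X := fun h => hind x hx a h ha
    have h1 := hred ⟨a, haX⟩
    rw [hctr3 x hx ⟨a, haX⟩ ha] at h1
    obtain ⟨z, hz⟩ := Finset.card_eq_one.1 h1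
    have h2 : z ∈ Finset.univ.filter fun z => ctr z = x ∧ red z = true := by
      rw [hz]
      exact Finset.mem_singleton_self z
    simp only [Finset.mem_filter, Finset.mem_univ, true_and] at h2
    refine ⟨z, ?_, h2.2⟩
    rw [← h2.1]
    exact hctr2 z
  · intro x hx y z hy hy' hz hz'
    have h1 := hred y
    rw [hctr3 x hx y hy, Finset.card_eq_one] at h1
    obtain ⟨w, hw⟩ := h1
    have h2 : ∀ u : Y, G.Adj x u.1 → red u = true → u = w := by
      intro u hu hu'
      have h3 : u ∈ Finset.univ.filter fun z => ctr z = x ∧ red z = true := by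
        simp only [Finset.mem_filter, Finset.mem_univ, true_and]
        exact ⟨hctr3 x hx u hu, hu'⟩
      rw [hw] at h3
      exact Finset.mem_singleton.1 h3
    rw [h2 y hy hy', h2 z hz hz']

end Pool.Agent.JW
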