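import Pool.Agent.JW.Blk

/-!
# The cut rule for cycles made of blocks of 3 and at most one block of 4
-/

set_option autoImplicit false

namespace Pool.Agent.JW

open Function

/-- the pattern of a big block which needs the left mode -/
def plf (r0 r1 r2 r3 : Bool) : Bool := (r0 && !r1 && !r2 && !r3) || (!r0 && !r1 && r2 && !r3)

/-- admissible blocks -/
def okf (bg m r0 r1 r2 r3 : Bool) : Bool :=
  if bg then (!(r0 && r1) && !(r2 && r3) && (r0 || r1 || r2 || r3) && (m == plf r0 r1 r2 r3))
  else ((r0 && !r1 && !r2) || (!r0 && r1 && !r2) || (!r0 && !r1 && r2))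

/-- cut after the element with offset `o` -/
def cutf (bg m r0 r1 r2 r3 : Bool) (o : ℕ) : Bool :=
  if bg then
    if (r0 || r1) && (r2 || r3) then o == 0 || o == 2
    else if r0 then o == 0 else if r1 then o == 1 else if r2 then o == 1 else o == 2
  else if r0 then o == 0 else if r1 then (if m then o == 0 else o == 1) else o == 1

/-- the red flag of the element with offset `o` -/
def rf (r0 r1 r2 r3 : Bool) (o : ℕ) : Bool :=
  match o with
  | 0 => r0
  | 1 => r1
  | 2 => r2
  | _ => r3

/-- the bound for the incoming weight -/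
def sinf (m : Bool) : ℕ := if m then 3 else 2

/-- the accumulated weight -/
def accf (bg m r0 r1 r2 r3 : Bool) : ℕ → ℕ
  | 0 => sinf m + 1 + (if r0 then 1 else 0)
  | k + 1 => (if cutf bg m r0 r1 r2 r3 k then 0 else accf bg m r0 r1 r2 r3 k) + 1 +
      (if rf r0 r1 r2 r3 (k + 1) then 1 else 0)

theorem cutf_last : ∀ (bg m r0 r1 r2 r3 : Bool), okf bg m r0 r1 r2 r3 = true →
    cutf bg m r0 r1 r2 r3 (if bg then 3 else 2) = false := by decide

theorem cutf_red : ∀ (bg m r0 r1 r2 r3 : Bool), okf bg m r0 r1 r2 r3 = true → ∀ o : Fin 4,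
    o.1 + 1 < (if bg = true then 4 else 3) → cutf bg m r0 r1 r2 r3 o.1 = true →
    rf r0 r1 r2 r3 o.1 = true ∨ rf r0 r1 r2 r3 (o.1 + 1) = true := by decide

theorem cutf_adj : ∀ (bg m r0 r1 r2 r3 : Bool), okf bg m r0 r1 r2 r3 = true → ∀ o : Fin 4,
    o.1 + 1 < (if bg = true then 4 else 3) → cutf bg m r0 r1 r2 r3 o.1 = true →
    cutf bg m r0 r1 r2 r3 (o.1 + 1) = false := by decide

theorem accf_le : ∀ (bg m r0 r1 r2 r3 : Bool), okf bg m r0 r1 r2 r3 = true → ∀ o : Fin 4,
    o.1 < (if bg = true then 4 else 3) → accf bg m r0 r1 r2 r3 o.1 ≤ 5 := by decide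

theorem accf_last : ∀ (bg m r0 r1 r2 r3 : Bool), okf bg m r0 r1 r2 r3 = true →
    accf bg m r0 r1 r2 r3 (if bg then 3 else 2) ≤ sinf m := by decide

variable {Y : Type*} {σ : Equiv.Perm Y}

/-- the `j`-th red flag of the block of `y` -/
def Blk.r (B : Blk σ) (red : Y → Bool) (j : ℕ) (y : Y) : Bool := red ((σ^[j]) (B.b y))

/-- the red flags of a block are admissible -/
structure Blk.Ok (B : Blk σ) (red : Y → Bool) : Prop where
  small : ∀ y, B.big y = false → ((B.r red 0 y && !B.r red 1 y && !B.r red 2 y) ||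
    (!B.r red 0 y && B.r red 1 y && !B.r red 2 y) ||
    (!B.r red 0 y && !B.r red 1 y && B.r red 2 y)) = true
  big : ∀ y, B.big y = true → (!(B.r red 0 y && B.r red 1 y) && !(B.r red 2 y && B.r red 3 y) &&
    (B.r red 0 y || B.r red 1 y || B.r red 2 y || B.r red 3 y)) = true

/-- **Rule.** -/
theorem Blk.rule (B : Blk σ) (red : Y → Bool) (h : B.Ok red) :
    ∃ (cut : Y → Bool) (acc : Y → ℕ),
      (∀ y, cut y = true → red y = true ∨ red (σ y) = true) ∧
      (∀ y, cut y = true → cut (σ y) = false) ∧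
      (∀ y, (if cut y = true then 0 else acc y) + 1 + (if red (σ y) = true then 1 else 0) ≤
        acc (σ y)) ∧
      (∀ y, acc y ≤ 5) := by
  classical
  let m : Y → Bool := fun y => decide (∃ z, B.rep z = B.rep y ∧ B.big z = true ∧
    plf (B.r red 0 z) (B.r red 1 z) (B.r red 2 z) (B.r red 3 z) = true)
  let cut : Y → Bool := fun y =>
    cutf (B.big y) (m y) (B.r red 0 y) (B.r red 1 y) (B.r red 2 y) (B.r red 3 y) (B.o y)
  let acc : Y → ℕ := fun y =>
    accf (B.big y) (m y) (B.r red 0 y) (B.r red 1 y) (B.r red 2 y) (B.r red 3 y) (B.o y)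
  have hok : ∀ y, okf (B.big y) (m y) (B.r red 0 y) (B.r red 1 y) (B.r red 2 y) (B.r red 3 y) =
      true := by
    intro y
    cases hb : B.big y with
    | false =>
      have h1 := h.small y hb
      simpa only [okf, Bool.false_eq_true, if_false] using h1
    | true =>
      have h1 := h.big y hb
      have hm : m y = plf (B.r red 0 y) (B.r red 1 y) (B.r red 2 y) (B.r red 3 y) := by
        have hiff : m y = true ↔
            plf (B.r red 0 y) (B.r red 1 y) (B.r red 2 y) (B.r red 3 y) = true := by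
          simp only [m, decide_eq_true_eq]
          constructor
          · rintro ⟨z, hz1, hz2, hz3⟩
            have hz4 : B.b z = B.b y := B.uniq z y hz1 hz2 hb
            simpa only [Blk.r, hz4] using hz3
          · intro h2
            exact ⟨y, rfl, hb, h2⟩
        exact Bool.eq_iff_iff.2 hiff
      unfold okf
      rw [if_pos rfl, hm, h1, beq_self_eq_true]
      rfl
  have hms : ∀ y, m (σ y) = m y := by
    intro y
    simp only [m, B.rep_s]
  have hrs : ∀ y j, B.o y + 1 < B.sz y → B.r red j (σ y) = B.r red j y := by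
    intro y j hy
    simp only [Blk.r, B.step_b y hy]
  have hred : ∀ y, red y = rf (B.r red 0 y) (B.r red 1 y) (B.r red 2 y) (B.r red 3 y) (B.o y) := by
    intro y
    have h1 := B.o_lt y
    have h2 := B.sz_def y
    have h3 := B.it y
    have h4 : B.o y = 0 ∨ B.o y = 1 ∨ B.o y = 2 ∨ B.o y = 3 := by
      split_ifs at h2 <;> omega
    rcases h4 with h4 | h4 | h4 | h4 <;> rw [h4] at h3 ⊢ <;> simp only [rf, Blk.r, h3]
  have hcase : ∀ y, B.o y + 1 < B.sz y ∨ B.o y + 1 = B.sz y := fun y => by
    have := B.o_lt y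
    omega
  have hlast : ∀ y, B.o y + 1 = B.sz y → B.o y = if B.big y = true then 3 else 2 := by
    intro y hy
    rw [B.sz_def] at hy
    split_ifs at hy ⊢ <;> omega
  have hcl : ∀ y, B.o y + 1 = B.sz y → cut y = false := by
    intro y hy
    show cutf _ _ _ _ _ _ (B.o y) = false
    rw [hlast y hy]
    exact cutf_last _ _ _ _ _ _ (hok y)
  have ho4 : ∀ y, B.o y < 4 := by
    intro y
    have h1 := B.o_lt y
    rw [B.sz_def] at h1
    split_ifs at h1 <;> omega
  refine ⟨cut, acc, ?_, ?_, ?_, ?_⟩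
  · intro y hy
    rcases hcase y with h1 | h1
    · have h2 := cutf_red _ _ _ _ _ _ (hok y) ⟨B.o y, ho4 y⟩ (by rw [B.sz_def] at h1; exact h1) hy
      rw [hred y, hred (σ y), B.step_o y h1, hrs y _ h1, hrs y _ h1, hrs y _ h1, hrs y _ h1]
      exact h2
    · rw [hcl y h1] at hy
      exact absurd hy (by simp)
  · intro y hy
    rcases hcase y with h1 | h1
    · have h2 := cutf_adj _ _ _ _ _ _ (hok y) ⟨B.o y, ho4 y⟩ (by rw [B.sz_def] at h1; exact h1) hy
      show cutf _ _ _ _ _ _ (B.o (σ y)) = false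
      rw [B.step_big y h1, hms, B.step_o y h1, hrs y _ h1, hrs y _ h1, hrs y _ h1, hrs y _ h1]
      exact h2
    · rw [hcl y h1] at hy
      exact absurd hy (by simp)
  · intro y
    rcases hcase y with h1 | h1
    · have h3 : acc (σ y) = accf (B.big y) (m y) (B.r red 0 y) (B.r red 1 y) (B.r red 2 y)
          (B.r red 3 y) (B.o y + 1) := by
        show accf _ _ _ _ _ _ (B.o (σ y)) = _
        rw [B.step_big y h1, hms, B.step_o y h1, hrs y _ h1, hrs y _ h1, hrs y _ h1, hrs y _ h1]
      rw [h3, hred (σ y), B.step_o y h1, hrs y _ h1, hrs y _ h1, hrs y _ h1, hrs y _ h1]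
      exact le_of_eq rfl
    · have h2 := hcl y h1
      have h3 : acc y ≤ sinf (m y) := by
        show accf _ _ _ _ _ _ (B.o y) ≤ _
        rw [hlast y h1]
        exact accf_last _ _ _ _ _ _ (hok y)
      have h4 : acc (σ y) = sinf (m y) + 1 + (if red (σ y) = true then 1 else 0) := by
        have h5 : B.b (σ y) = σ y := B.last_b y h1
        have h6 : B.r red 0 (σ y) = red (σ y) := by
          simp only [Blk.r, h5, iterate_zero, id_eq]
        show accf _ _ _ _ _ _ (B.o (σ y)) = _
        rw [B.last_o y h1]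
        show sinf (m (σ y)) + 1 + (if B.r red 0 (σ y) = true then 1 else 0) = _
        rw [hms, h6]
      rw [h4, h2]
      simp only [Bool.false_eq_true, if_false]
      omega
  · intro y
    have h1 := B.o_lt y
    rw [B.sz_def] at h1
    exact accf_le _ _ _ _ _ _ (hok y) ⟨B.o y, ho4 y⟩ h1

end Pool.Agent.JW
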