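import Pool.Agent.JW.PC

/-!
# Bipartite cubic graphs with a 2-factor all of whose cycles have length divisible by four
-/

set_option autoImplicit false

namespace Pool.Agent.JW

open Function

/-- Let `G` be a bipartite cubic graph with a 2-factor `F` in which every cycle has length divisible by
four. Then `G` has a 2-edge-colouring with all monochromatic components of size at most four. -/
theorem twoFactorFour {V : Type*} [Fintype V] [DecidableEq V] (G : SimpleGraph V)
    [DecidableRel G.Adj] (hreg : G.IsRegularOfDegree 3) (hbip : G.IsBipartite) (F : SimpleGraph V)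
    (hFG : F ≤ G) (hF : ∀ v, {w | F.Adj v w}.ncard = 2)
    (hC : ∀ C : F.ConnectedComponent, 4 ∣ C.supp.ncard) :
    ∃ c : Sym2 V → Bool, ∀ (b : Bool) (v : V), (compE G c b v).ncard ≤ 4 := by
  classical
  -- the side of a vertex
  obtain ⟨col⟩ := hbip
  let A : Set V := {v | col v = 0}
  have hA : ∀ u v, G.Adj u v → (u ∈ A ↔ v ∉ A) := by
    intro u v h
    have h1 := col.valid h
    show col u = 0 ↔ ¬ col v = 0
    omega
  -- the permutation of the 2-factor
  obtain ⟨σ, hσ, hσ2⟩ := two_regular_perm F (by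
    intro v
    obtain ⟨p, q, hpq, h⟩ := Set.ncard_eq_two.1 (hF v)
    refine ⟨p, q, hpq, fun w => ?_⟩
    have : w ∈ {w | F.Adj v w} ↔ w ∈ ({p, q} : Set V) := by rw [h]
    simpa using this)
  let τ : V → V := fun v => σ.symm v
  have hστ : ∀ v, σ (τ v) = v := fun v => σ.apply_symm_apply v
  have hτσ : ∀ v, τ (σ v) = v := fun v => σ.symm_apply_apply v
  have hFs : ∀ v, F.Adj v (σ v) := fun v => (hσ _ _).2 (Or.inl rfl)
  have hFt : ∀ v, F.Adj v (τ v) := fun v => (hσ _ _).2 (Or.inr (hστ v).symm)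
  have hFn : ∀ v w, F.Adj v w ↔ w = σ v ∨ w = τ v := by
    intro v w
    rw [hσ]
    constructor
    · rintro (h | h)
      · exact Or.inl h
      · right
        rw [h, hτσ]
    · rintro (h | h)
      · exact Or.inl h
      · right
        rw [h, hστ]
  have hne : ∀ v, σ v ≠ τ v := by
    intro v h
    apply hσ2 v
    rw [h, hστ]
  -- the third neighbour
  have hm : ∀ v, ∃ w, G.Adj v w ∧ ¬ F.Adj v w ∧ ∀ u, G.Adj v u ↔ u = σ v ∨ u = τ v ∨ u = w := by
    intro v
    obtain ⟨w, h1, h2, h3⟩ := cubic_nbrs_of2 hreg (hne v) (hFG (hFs v)) (hFG (hFt v))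
    refine ⟨w, (h3 w).2 (Or.inr (Or.inr rfl)), ?_, h3⟩
    rw [hFn]
    rintro (h | h)
    · exact h1 h.symm
    · exact h2 h.symm
  choose m hm1 hm2 hm3 using hm
  have hmu : ∀ v w, G.Adj v w → ¬ F.Adj v w → w = m v := by
    intro v w h1 h2
    rcases (hm3 v w).1 h1 with h | h | h
    · exact absurd ((hFn v w).2 (Or.inl h)) h2
    · exact absurd ((hFn v w).2 (Or.inr h)) h2
    · exact h
  have hmm : ∀ v, m (m v) = v := fun v =>
    (hmu (m v) v (hm1 v).symm (fun h => hm2 v h.symm)).symm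
  -- the signs
  obtain ⟨I⟩ := cyc_index σ
  have hlen : ∀ v, 4 ∣ I.len v := by
    intro v
    have h0 : 0 < I.len v := lt_of_le_of_lt (Nat.zero_le _) (I.idx_lt v)
    have h1 := comp_ncard F σ hσ v (I.len v) h0 (I.len_it v) (fun n hn h => I.len_le v n hn h)
    rw [← h1]
    exact hC _
  let κ : V → Bool := fun v => decide (I.idx v / 2 % 2 = 0)
  have hκ : ∀ v, κ (σ (σ v)) = !κ v := by
    intro v
    have h0 := I.idx_lt v
    have h1 := I.idx_s v
    have h2 := I.idx_s (σ v)
    rw [I.len_s v] at h2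
    obtain ⟨k, hk⟩ := hlen v
    have h3 : (I.idx (σ (σ v)) / 2 % 2 = 0) ↔ ¬ (I.idx v / 2 % 2 = 0) := by
      rw [h1] at h2
      rw [h2]
      split_ifs <;> omega
    simp only [κ]
    by_cases h4 : I.idx v / 2 % 2 = 0
    · simp [h4, h3]
    · simp [h4, h3]
  have hκ2 : ∀ v, κ (σ v) = !κ (τ v) := by
    intro v
    have := hκ (τ v)
    rwa [hστ] at this
  -- the colouring
  let c : Sym2 V → Bool := fun e =>
    decide (∃ a b, a ∈ A ∧ b ∉ A ∧ e = s(a, b) ∧ (if F.Adj a b then κ a else !κ a) = true)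
  obtain ⟨fa, fb, hf⟩ : ∃ fa fb : Sym2 V → V, ∀ e, (∃ a b, a ∈ A ∧ b ∉ A ∧ e = s(a, b)) →
      fa e ∈ A ∧ fb e ∉ A ∧ e = s(fa e, fb e) := by
    have h : ∀ e : Sym2 V, ∃ a b, (∃ a b, a ∈ A ∧ b ∉ A ∧ e = s(a, b)) →
        a ∈ A ∧ b ∉ A ∧ e = s(a, b) := by
      intro e
      by_cases h : ∃ a b, a ∈ A ∧ b ∉ A ∧ e = s(a, b)
      · obtain ⟨a, b, h⟩ := h
        exact ⟨a, b, fun _ => h⟩
      · exact ⟨e.out.1, e.out.1, fun h1 => absurd h1 h⟩
    choose fa fb h using h
    exact ⟨fa, fb, h⟩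
  let lab : Sym2 V → V := fun e => if F.Adj (fa e) (fb e) then fa e else
    if κ (σ (fb e)) = !κ (fa e) then σ (fb e) else τ (fb e)
  have huniq : ∀ a b a' b', a ∈ A → b ∉ A → a' ∈ A → b' ∉ A → s(a, b) = s(a', b') →
      a = a' ∧ b = b' := by
    intro a b a' b' ha hb ha' hb' h
    rcases Sym2.eq_iff.1 h with h1 | h1
    · exact h1
    · exact absurd (h1.1 ▸ ha) hb'
  have hc : ∀ a b, a ∈ A → b ∉ A → c s(a, b) = if F.Adj a b then κ a else !κ a := by
    intro a b ha hb
    rw [Bool.eq_iff_iff]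
    simp only [c, decide_eq_true_eq]
    constructor
    · rintro ⟨a', b', ha', hb', h1, h2⟩
      obtain ⟨rfl, rfl⟩ := huniq a b a' b' ha hb ha' hb' h1
      exact h2
    · intro h
      exact ⟨a, b, ha, hb, rfl, h⟩
  have hl : ∀ a b, a ∈ A → b ∉ A → lab s(a, b) = if F.Adj a b then a else
      if κ (σ b) = !κ a then σ b else τ b := by
    intro a b ha hb
    obtain ⟨h1, h2, h3⟩ := hf s(a, b) ⟨a, b, ha, hb, rfl⟩
    obtain ⟨h4, h5⟩ := huniq a b _ _ ha hb h1 h2 h3
    simp only [lab]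
    rw [← h4, ← h5]
  have hcF : ∀ a b, a ∈ A → b ∉ A → F.Adj a b → c s(a, b) = κ a := by
    intro a b ha hb h
    rw [hc a b ha hb, if_pos h]
  have hcM : ∀ a b, a ∈ A → b ∉ A → ¬ F.Adj a b → c s(a, b) = !κ a := by
    intro a b ha hb h
    rw [hc a b ha hb, if_neg h]
  have hlF : ∀ a b, a ∈ A → b ∉ A → F.Adj a b → lab s(a, b) = a := by
    intro a b ha hb h
    rw [hl a b ha hb, if_pos h]
  have hlM : ∀ a b, a ∈ A → b ∉ A → ¬ F.Adj a b →
      lab s(a, b) = if κ (σ b) = !κ a then σ b else τ b := by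
    intro a b ha hb h
    rw [hl a b ha hb, if_neg h]
  -- edges at a vertex of `A`
  have key1 : ∀ x y z, x ∈ A → G.Adj x y → G.Adj x z → c s(x, y) = c s(x, z) →
      lab s(x, y) = lab s(x, z) := by
    intro x y z hx hy hz h
    have hyA : y ∉ A := (hA x y hy).1 hx
    have hzA : z ∉ A := (hA x z hz).1 hx
    by_cases h1 : F.Adj x y <;> by_cases h2 : F.Adj x z
    · rw [hlF x y hx hyA h1, hlF x z hx hzA h2]
    · rw [hcF x y hx hyA h1, hcM x z hx hzA h2] at h
      simp at h
    · rw [hcM x y hx hyA h1, hcF x z hx hzA h2] at h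
      simp at h
    · rw [hmu x y hy h1, hmu x z hz h2]
  -- an F-edge and an M-edge at a vertex outside `A`
  have key3 : ∀ x y z, x ∉ A → y ∈ A → z ∈ A → F.Adj y x → ¬ F.Adj z x → G.Adj x z →
      c s(y, x) = c s(z, x) → lab s(y, x) = lab s(z, x) := by
    intro x y z hx hy hz h1 h2 h3 h
    rw [hcF y x hy hx h1, hcM z x hz hx h2] at h
    rw [hlF y x hy hx h1, hlM z x hz hx h2]
    have h4 := hκ2 x
    rcases (hFn x y).1 h1.symm with h5 | h5
    · rw [← h5, if_pos h]
    · rw [← h5] at h4 ⊢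
      rw [h4, h]
      simp
  have key2 : ∀ x y z, x ∉ A → G.Adj x y → G.Adj x z → c s(y, x) = c s(z, x) →
      lab s(y, x) = lab s(z, x) := by
    intro x y z hx hy hz h
    have hyA : y ∈ A := (hA y x hy.symm).2 hx
    have hzA : z ∈ A := (hA z x hz.symm).2 hx
    by_cases h1 : F.Adj y x <;> by_cases h2 : F.Adj z x
    · rw [hcF y x hyA hx h1, hcF z x hzA hx h2] at h
      rw [hlF y x hyA hx h1, hlF z x hzA hx h2]
      have h4 := hκ2 x
      rcases (hFn x y).1 h1.symm with h5 | h5 <;> rcases (hFn x z).1 h2.symm with h6 | h6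
      · rw [h5, h6]
      · rw [← h5, ← h6, h] at h4
        simp at h4
      · rw [← h5, ← h6, h] at h4
        simp at h4
      · rw [h5, h6]
    · exact key3 x y z hx hyA hzA h1 h2 hz h
    · exact (key3 x z y hx hzA hyA h2 h1 hy h.symm).symm
    · rw [hmu x y hy (fun h3 => h1 h3.symm), hmu x z hz (fun h3 => h2 h3.symm)]
  refine ⟨c, fun b v => cert_list (lab := lab) ?_
    (fun _ a => [s(a, σ a), s(a, τ a), s(σ a, m (σ a)), s(τ a, m (τ a))])
    (fun _ _ => by simp) ?_ b v⟩
  · intro x y z hy hz h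
    by_cases hx : x ∈ A
    · exact key1 x y z hx hy hz h
    · rw [Sym2.eq_swap (a := x) (b := y), Sym2.eq_swap (a := x) (b := z)] at h ⊢
      exact key2 x y z hx hy hz h
  · intro e he
    have key4 : ∀ a b, a ∈ A → b ∉ A → G.Adj a b → s(a, b) ∈
        [s(lab s(a, b), σ (lab s(a, b))), s(lab s(a, b), τ (lab s(a, b))),
          s(σ (lab s(a, b)), m (σ (lab s(a, b)))), s(τ (lab s(a, b)), m (τ (lab s(a, b))))] := by
      intro a b ha hb hab
      by_cases h1 : F.Adj a b
      · rw [hlF a b ha hb h1]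
        rcases (hFn a b).1 h1 with h2 | h2
        · rw [h2]
          simp
        · rw [h2]
          simp
      · rw [hlM a b ha hb h1]
        have h2 : a = m b := hmu b a hab.symm (fun h => h1 h.symm)
        split_ifs with h3
        · rw [hτσ b, h2]
          simp
        · rw [hστ b, h2]
          simp
    induction e with
    | _ x y =>
    have hxy : G.Adj x y := he
    by_cases hx : x ∈ A
    · exact key4 x y hx ((hA x y hxy).1 hx) hxy
    · have hy : y ∈ A := (hA y x hxy.symm).2 hx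
      have h1 : s(x, y) = s(y, x) := Sym2.eq_swap
      rw [h1]
      exact key4 y x hy hx hxy.symm

end Pool.Agent.JW
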